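import Mathlib

namespace Pool.Agent.MP_d05e11_al

open Finset

theorem exists_fourth {h E : ℝ} (hh : 0 < h) (hE : h ≤ E) :
    ∃ r : ℕ, 0 < r ∧ E ≤ h * (2 * r) ^ 4 ∧ h * (2 * r) ^ 4 ≤ 256 * E := by
  have hex : ∃ r : ℕ, E ≤ h * ((r : ℝ) + 1) ^ 4 := by
    obtain ⟨r, hr⟩ := exists_nat_ge (E / h)
    refine ⟨r, ?_⟩
    rw [div_le_iff₀ hh] at hr
    have h0 : (0 : ℝ) ≤ r := Nat.cast_nonneg r
    have h1 : (r : ℝ) + 1 ≤ ((r : ℝ) + 1) ^ 4 := le_self_pow₀ (by linarith) (by norm_num)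
    nlinarith
  classical
  have h1 := Nat.find_spec hex
  set r := Nat.find hex with hr
  have h0 : (0 : ℝ) ≤ r := Nat.cast_nonneg r
  refine ⟨r + 1, Nat.succ_pos _, ?_, ?_⟩
  · push_cast
    have : 0 ≤ h * ((r : ℝ) + 1) ^ 4 := by positivity
    nlinarith
  · push_cast
    rcases Nat.eq_zero_or_pos r with h2 | h2
    · rw [h2]; push_cast; nlinarith
    · have h3 := Nat.find_min hex (m := r - 1) (by omega)
      push Not at h3
      have h4 : ((r - 1 : ℕ) : ℝ) + 1 = r := by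
        rw [Nat.cast_sub h2]; simp
      rw [h4] at h3
      have h5 : (1 : ℝ) ≤ r := by exact_mod_cast h2
      have h6 : (2 * ((r : ℝ) + 1)) ^ 4 ≤ (4 * r) ^ 4 :=
        pow_le_pow_left₀ (by positivity) (by linarith) 4
      nlinarith

section
variable {ρ : ℕ → ℝ} (h1 : ∀ n, 1 ≤ n → 1 ≤ ρ n) (hmono : ∀ n m, 1 ≤ n → n ≤ m → ρ n ≤ ρ m)
  (hsub : ∀ n m, 1 ≤ n → 1 ≤ m → ρ (n + m) ≤ ρ n + ρ m) (hsqrt : ∀ n : ℕ, 1 ≤ n → √(n : ℝ) ≤ ρ n)

include hsub in
theorem rho_mul_le (n q : ℕ) (hn : 1 ≤ n) : ρ ((q + 1) * n) ≤ (q + 1) * ρ n := by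
  induction q with
  | zero => simp
  | succ q ih =>
    have : (q + 1 + 1) * n = (q + 1) * n + n := by ring
    rw [this]
    have h2 := hsub ((q + 1) * n) n (by nlinarith) hn
    push_cast
    linarith

include h1 hmono hsub in
theorem rho_quasi {n N : ℕ} (hn : 1 ≤ n) (hN : n ≤ N) : n * ρ N ≤ 2 * N * ρ n := by
  have h2 : N ≤ (N / n + 1) * n := by
    have := Nat.lt_mul_div_succ N (show 0 < n by omega)
    nlinarith
  have h3 := (hmono N _ (by omega) h2).trans (rho_mul_le hsub n (N / n) hn)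
  have h4 : (N / n + 1) * n ≤ 2 * N := by
    have := Nat.div_mul_le_self N n
    nlinarith
  have h5 : (((N / n : ℕ) : ℝ) + 1) * n ≤ 2 * N := by exact_mod_cast h4
  have h6 : (0 : ℝ) ≤ n := Nat.cast_nonneg n
  have h7 := h1 n hn
  calc n * ρ N ≤ n * ((((N / n : ℕ) : ℝ) + 1) * ρ n) := by gcongr
    _ = ((((N / n : ℕ) : ℝ) + 1) * n) * ρ n := by ring
    _ ≤ 2 * N * ρ n := by gcongr

include h1 hmono hsub hsqrt in
theorem approx : ∃ (h r : ℕ → ℕ), (∀ s, 0 < h s) ∧ (∀ s, 0 < r s) ∧ ∃ C : ℝ, 0 < C ∧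
    (∀ n : ℕ, 1 ≤ n → ∃ s, ρ n ≤ C * min ((n : ℝ) / h s) (h s * ((2 * r s) ^ 4 : ℕ))) ∧
    ((∀ n : ℕ, 1 ≤ n → n ≤ C * ρ n) ∨ ((∀ s, 5 * h s ≤ h (s + 1)) ∧
      ∀ n : ℕ, 1 ≤ n → ∃ s₁, (n : ℝ) / h s₁ ≤ C * ρ n ∧
        ∑ s ∈ range s₁, (h s : ℝ) * ((2 * r s) ^ 4 : ℕ) ≤ C * ρ n)) := by
  have hlin : ∀ n : ℕ, 1 ≤ n → ρ n ≤ ρ 1 * n := by
    intro n hn
    have := rho_mul_le hsub 1 (n - 1) le_rfl
    rw [Nat.sub_add_cancel hn, mul_one, Nat.cast_sub hn] at this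
    push_cast at this
    linarith
  have hρ1 := h1 1 le_rfl
  by_cases hK : ∃ K : ℝ, ∀ n : ℕ, 1 ≤ n → n ≤ K * ρ n
  · obtain ⟨K, hK⟩ := hK
    refine ⟨fun _ => 1, fun s => s + 1, fun _ => one_pos, fun _ => Nat.succ_pos _,
      max K (ρ 1), lt_max_of_lt_right (by linarith), fun n hn => ⟨n, ?_⟩, Or.inl fun n hn => ?_⟩
    · have h2 : n ≤ (2 * (n + 1)) ^ 4 :=
        le_trans (by omega) (Nat.le_self_pow (by norm_num) (2 * (n + 1)))
      have h3 : (n : ℝ) ≤ ((2 * (n + 1)) ^ 4 : ℕ) := by exact_mod_cast h2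
      rw [Nat.cast_one, div_one, one_mul, min_eq_left h3]
      refine (hlin n hn).trans ?_
      gcongr
      exact le_max_right _ _
    · refine (hK n hn).trans ?_
      have := h1 n hn
      gcongr
      exact le_max_left _ _
  push Not at hK
  have hmax : ∀ j : ℕ, ∃ N : ℕ, 1 ≤ N ∧ (N : ℝ) ≤ 5 ^ j * ρ N ∧
      ∀ n : ℕ, 1 ≤ n → (n : ℝ) ≤ 5 ^ j * ρ n → n ≤ N := by
    intro j
    obtain ⟨n₀, hn₀, hn₁⟩ := hK (2 * 5 ^ j)
    have hb : ∀ n : ℕ, 1 ≤ n → (n : ℝ) ≤ 5 ^ j * ρ n → n ≤ n₀ := by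
      intro n hn h
      by_contra h2
      have h3 := rho_quasi h1 hmono hsub hn₀ (show n₀ ≤ n by omega)
      have h4 : (0 : ℝ) < n := by exact_mod_cast hn
      have h5 : (0 : ℝ) < n₀ := by exact_mod_cast hn₀
      have h6 : (0 : ℝ) < 5 ^ j := by positivity
      have h7 : n * (2 * 5 ^ j * ρ n₀) < n * n₀ := by gcongr
      have h8 : n₀ * (n : ℝ) ≤ n₀ * (5 ^ j * ρ n) := by gcongr
      nlinarith
    classical
    have h11 : (1 : ℝ) ≤ 5 ^ j * ρ 1 := by
      have : (1 : ℝ) ≤ 5 ^ j := one_le_pow₀ (by norm_num)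
      nlinarith
    refine ⟨Nat.findGreatest (fun n => (n : ℝ) ≤ 5 ^ j * ρ n) n₀, ?_, ?_, fun n hn h => ?_⟩
    · exact Nat.le_findGreatest hn₀ (by simpa using h11)
    · exact Nat.findGreatest_spec (P := fun n => (n : ℝ) ≤ 5 ^ j * ρ n) (m := 1) hn₀
        (by simpa using h11)
    · exact Nat.le_findGreatest (hb n hn h) h
  choose N hN1 hN2 hN3 using hmax
  have hN4 : ∀ j, 25 ^ j ≤ N j := by
    intro j
    have h25 : 1 ≤ 25 ^ j := Nat.one_le_pow _ _ (by norm_num)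
    refine hN3 j _ h25 ?_
    have h2 := hsqrt _ h25
    have h3 : ((25 ^ j : ℕ) : ℝ) = 5 ^ j * 5 ^ j := by
      push_cast; rw [← mul_pow]; norm_num
    rw [h3, Real.sqrt_mul_self (by positivity)] at h2
    rw [h3]
    gcongr
  have hE : ∀ j, (5 : ℝ) ^ j ≤ ρ (N j) := by
    intro j
    refine le_trans ?_ (hsqrt _ (hN1 j))
    refine Real.le_sqrt_of_sq_le ?_
    have : ((25 ^ j : ℕ) : ℝ) ≤ N j := by exact_mod_cast hN4 j
    refine le_trans (le_of_eq ?_) this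
    push_cast; rw [← pow_mul, mul_comm, pow_mul]; norm_num
  have hEm : ∀ j, ρ (N j) ≤ ρ (N (j + 1)) := by
    intro j
    refine hmono _ _ (hN1 j) (hN3 _ _ (hN1 j) ((hN2 j).trans ?_))
    have := h1 _ (hN1 j)
    gcongr <;> norm_num
  let a : ℕ → ℝ := fun j => Nat.rec (ρ (N 0))
    (fun j x => if 2 * x ≤ ρ (N (j + 1)) then ρ (N (j + 1)) else x) j
  have a0 : a 0 = ρ (N 0) := rfl
  have aS : ∀ j, a (j + 1) = if 2 * a j ≤ ρ (N (j + 1)) then ρ (N (j + 1)) else a j :=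
    fun j => rfl
  let Dd : ℕ → ℝ := fun j => match j with
    | 0 => ρ (N 0)
    | j + 1 => if 2 * a j ≤ ρ (N (j + 1)) then ρ (N (j + 1)) else 5 ^ (j + 1)
  have D0 : Dd 0 = ρ (N 0) := rfl
  have DS : ∀ j, Dd (j + 1) = if 2 * a j ≤ ρ (N (j + 1)) then ρ (N (j + 1)) else 5 ^ (j + 1) :=
    fun j => rfl
  have hD : ∀ j, (5 : ℝ) ^ j ≤ Dd j := by
    intro j
    cases j with
    | zero => exact hE 0
    | succ j =>
      rw [DS]
      split_ifs
      · exact hE _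
      · exact le_rfl
  have ha : ∀ j, a j ≤ ρ (N j) ∧ ρ (N j) ≤ 2 * a j ∧ (∃ i, i ≤ j ∧ Dd i = a j) ∧
      ∑ i ∈ range (j + 1), Dd i ≤ 2 * a j + 2 * 5 ^ j := by
    intro j
    induction j with
    | zero =>
      have := h1 _ (hN1 0)
      refine ⟨le_rfl, by rw [a0]; linarith, ⟨0, le_rfl, rfl⟩, ?_⟩
      simp only [zero_add, range_one, sum_singleton, D0, a0]
      norm_num; linarith
    | succ j ih =>
      obtain ⟨i1, i2, ⟨i, i3, i4⟩, i5⟩ := ih
      have h5 : (0 : ℝ) < 5 ^ j := by positivity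
      have h6 := h1 _ (hN1 (j + 1))
      rw [sum_range_succ, aS, DS]
      by_cases hc : 2 * a j ≤ ρ (N (j + 1))
      · simp only [if_pos hc]
        refine ⟨le_rfl, by linarith, ⟨j + 1, le_rfl, by rw [DS, if_pos hc]⟩, ?_⟩
        rw [pow_succ]; linarith
      · simp only [if_neg hc]
        refine ⟨i1.trans (hEm j), by linarith, ⟨i, by omega, i4⟩, ?_⟩
        rw [pow_succ]; linarith
  choose r hr1 hr2 hr3 using fun j => exists_fourth (by positivity : (0 : ℝ) < 5 ^ j) (hD j)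
  refine ⟨fun j => 5 ^ j, r, fun _ => by positivity, hr1, 1024 + ρ 1, by linarith,
    fun n hn => ?_, Or.inr ⟨fun s => le_of_eq (by simp only [pow_succ]; ring), fun n hn => ?_⟩⟩
  · have hn0 : (0 : ℝ) < n := by exact_mod_cast hn
    have hρn := h1 n hn
    have hex : ∃ j : ℕ, (n : ℝ) ≤ 5 ^ j * ρ n := by
      refine ⟨n, ?_⟩
      have h2 : n ≤ 5 ^ n := (Nat.lt_pow_self (by norm_num)).le
      have h3 : (n : ℝ) ≤ 5 ^ n := by exact_mod_cast h2
      nlinarith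
    classical
    have hj := Nat.find_spec hex
    set j := Nat.find hex with hjdef
    obtain ⟨-, i2, ⟨i, i3, i4⟩, -⟩ := ha j
    refine ⟨i, ?_⟩
    have h2 : ρ n ≤ 2 * Dd i := by
      rw [i4]; exact (hmono _ _ hn (hN3 j n hn hj)).trans i2
    have h5i : (0 : ℝ) < 5 ^ i := by positivity
    have h3 : ρ n ≤ (1024 + ρ 1) * (n / 5 ^ i) := by
      rcases Nat.eq_zero_or_pos j with h | h
      · have : i = 0 := by omega
        rw [this, pow_zero, div_one]
        have := hlin n hn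
        nlinarith
      · have h4 := Nat.find_min hex (m := j - 1) (by omega)
        push Not at h4
        have h5 : (5 : ℝ) ^ i ≤ 5 * 5 ^ (j - 1) := by
          rw [← pow_succ']
          exact pow_le_pow_right₀ (by norm_num) (by omega)
        rw [mul_div_assoc', le_div_iff₀ h5i]
        have : ρ n * 5 ^ i ≤ ρ n * (5 * 5 ^ (j - 1)) := by gcongr
        nlinarith
    rw [mul_min_of_nonneg _ _ (by linarith)]
    refine le_min (by simpa using h3) ?_
    push_cast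
    have h4 := hr2 i
    have h5 := hD i
    nlinarith
  · have hn0 : (0 : ℝ) < n := by exact_mod_cast hn
    have hρn := h1 n hn
    have hex : ∃ j : ℕ, n ≤ N j :=
      ⟨n, (Nat.lt_pow_self (by norm_num)).le.trans (hN4 n)⟩
    classical
    have hj := Nat.find_spec hex
    set j := Nat.find hex with hjdef
    refine ⟨j, ?_, ?_⟩
    · have h2 := rho_quasi h1 hmono hsub hn hj
      have h3 := hN2 j
      have h4 : (0 : ℝ) < N j := by exact_mod_cast hN1 j
      have h5 : (0 : ℝ) < 5 ^ j := by positivity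
      push_cast
      rw [div_le_iff₀ h5]
      have h6 : (n : ℝ) * N j ≤ 5 ^ j * (2 * N j * ρ n) := by
        calc (n : ℝ) * N j ≤ n * (5 ^ j * ρ (N j)) := by gcongr
          _ = 5 ^ j * (n * ρ (N j)) := by ring
          _ ≤ _ := by gcongr
      have h7 : (n : ℝ) ≤ 5 ^ j * (2 * ρ n) := by
        by_contra h
        push Not at h
        nlinarith
      have h8 : 0 ≤ 5 ^ j * ρ n := by positivity
      nlinarith
    · rcases Nat.eq_zero_or_pos j with h | h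
      · rw [h]; simp; positivity
      · have h4 := Nat.find_min hex (m := j - 1) (by omega)
        push Not at h4
        obtain ⟨i1, -, -, i5⟩ := ha (j - 1)
        rw [Nat.sub_add_cancel h] at i5
        have h5 : ρ (N (j - 1)) ≤ ρ n := hmono _ _ (hN1 _) h4.le
        have h6 := hE (j - 1)
        have h7 : ∑ s ∈ range j, (((5 ^ s : ℕ) : ℝ)) * ((2 * r s) ^ 4 : ℕ)
            ≤ ∑ s ∈ range j, 256 * Dd s := by
          refine sum_le_sum fun s _ => ?_
          push_cast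
          exact hr3 s
        rw [← mul_sum] at h7
        nlinarith

end

end Pool.Agent.MP_d05e11_al
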