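import Mathlib

namespace Pool.Agent.MP_d05e11_al

open Finset

section Avg
variable {Ω : Type} [Fintype Ω]

/-- Uniform average over a finite type. -/
noncomputable def av (f : Ω → ℝ) : ℝ := (∑ ω, f ω) / (Fintype.card Ω : ℝ)

theorem av_add (f g : Ω → ℝ) : av (fun ω => f ω + g ω) = av f + av g := by
  simp [av, sum_add_distrib, add_div]

theorem av_mul (c : ℝ) (f : Ω → ℝ) : av (fun ω => c * f ω) = c * av f := by
  simp [av, ← mul_sum, mul_div_assoc]

theorem av_sub (f g : Ω → ℝ) : av (fun ω => f ω - g ω) = av f - av g := by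
  simp [av, sum_sub_distrib, sub_div]

theorem av_mono {f g : Ω → ℝ} (h : ∀ ω, f ω ≤ g ω) : av f ≤ av g := by
  unfold av
  exact div_le_div_of_nonneg_right (sum_le_sum fun ω _ => h ω) (Nat.cast_nonneg _)

theorem av_const [Nonempty Ω] (c : ℝ) : av (fun _ : Ω => c) = c := by
  simp [av]

theorem av_sum {ι : Type} (s : Finset ι) (f : ι → Ω → ℝ) :
    av (fun ω => ∑ i ∈ s, f i ω) = ∑ i ∈ s, av (f i) := by
  simp only [av]
  rw [sum_comm, sum_div]

theorem av_equiv {Ω' : Type} [Fintype Ω'] (e : Ω ≃ Ω') (f : Ω' → ℝ) :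
    av (fun ω => f (e ω)) = av f := by
  simp only [av]
  rw [Fintype.card_congr e, Equiv.sum_comp e f]

theorem av_prod {Ω' : Type} [Fintype Ω'] (f : Ω × Ω' → ℝ) :
    av f = av (fun a => av (fun b => f (a, b))) := by
  simp only [av, Fintype.sum_prod_type, Fintype.card_prod, Nat.cast_mul, ← sum_div]
  rw [div_div, mul_comm]

theorem av_comm {Ω' : Type} [Fintype Ω'] (f : Ω → Ω' → ℝ) :
    av (fun a => av (fun b => f a b)) = av (fun b => av (fun a => f a b)) := by
  simp only [av, ← sum_div]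
  rw [sum_comm, div_div, div_div, mul_comm]

theorem av_nonneg {f : Ω → ℝ} (h : ∀ ω, 0 ≤ f ω) : 0 ≤ av f :=
  div_nonneg (sum_nonneg fun ω _ => h ω) (Nat.cast_nonneg _)

theorem av_units (f : ℤˣ → ℝ) : av f = (f 1 + f (-1)) / 2 := by
  simp [av, Fintype.card_units_int, UnitsInt.univ]

theorem av_pi {ι : Type} [Fintype ι] [DecidableEq ι] (f : ι → Ω → ℝ) :
    av (fun x : ι → Ω => ∏ i, f i (x i)) = ∏ i, av (f i) := by
  simp only [av]
  rw [prod_div_distrib, Finset.prod_univ_sum, Fintype.piFinset_univ]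
  simp

/-- Expectation over uniformly random words of length `n`; the head of a list is the latest
letter. -/
noncomputable def EW : ℕ → (List Ω → ℝ) → ℝ
  | 0, Φ => Φ []
  | n + 1, Φ => EW n (fun w => av (fun ω => Φ (ω :: w)))

theorem EW_add (n : ℕ) (Φ Ψ : List Ω → ℝ) :
    EW n (fun w => Φ w + Ψ w) = EW n Φ + EW n Ψ := by
  induction n generalizing Φ Ψ with
  | zero => rfl
  | succ n ih => simp only [EW, av_add, ih]

theorem EW_mul (n : ℕ) (c : ℝ) (Φ : List Ω → ℝ) :
    EW n (fun w => c * Φ w) = c * EW n Φ := by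
  induction n generalizing Φ with
  | zero => rfl
  | succ n ih => simp only [EW, av_mul, ih]

theorem EW_sub (n : ℕ) (Φ Ψ : List Ω → ℝ) :
    EW n (fun w => Φ w - Ψ w) = EW n Φ - EW n Ψ := by
  induction n generalizing Φ Ψ with
  | zero => rfl
  | succ n ih => simp only [EW, av_sub, ih]

theorem EW_mono (n : ℕ) {Φ Ψ : List Ω → ℝ} (h : ∀ w, w.length = n → Φ w ≤ Ψ w) :
    EW n Φ ≤ EW n Ψ := by
  induction n generalizing Φ Ψ with
  | zero => exact h [] rfl
  | succ n ih =>
    simp only [EW]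
    exact ih fun w hw => av_mono fun ω => h _ (by simp [hw])

theorem EW_congr (n : ℕ) {Φ Ψ : List Ω → ℝ} (h : ∀ w, w.length = n → Φ w = Ψ w) :
    EW n Φ = EW n Ψ :=
  le_antisymm (EW_mono n fun w hw => (h w hw).le) (EW_mono n fun w hw => (h w hw).ge)

theorem EW_const [Nonempty Ω] (n : ℕ) (c : ℝ) : EW n (fun _ : List Ω => c) = c := by
  induction n with
  | zero => rfl
  | succ n ih => simp only [EW, av_const, ih]

theorem EW_sum {ι : Type} (n : ℕ) (s : Finset ι) (Φ : ι → List Ω → ℝ) :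
    EW n (fun w => ∑ i ∈ s, Φ i w) = ∑ i ∈ s, EW n (Φ i) := by
  induction n generalizing Φ with
  | zero => rfl
  | succ n ih => simp only [EW, av_sum, ih]

theorem EW_eq_av (n : ℕ) (Φ : List Ω → ℝ) :
    EW n Φ = av (fun x : Fin n → Ω => Φ (List.ofFn x).reverse) := by
  classical
  induction n generalizing Φ with
  | zero => simp [EW, av]
  | succ n ih =>
    rw [EW, ih, ← av_equiv (Fin.snocEquiv fun _ : Fin (n + 1) => Ω), av_prod, av_comm]
    congr 1
    funext x
    congr 1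
    funext ω
    congr 1
    rw [List.ofFn_succ_last]
    simp [Fin.snocEquiv]

end Avg

section Anchor
variable {Ω : Type} [Fintype Ω] (e : Ω → ℤˣ)

/-- Cursor position after a word. -/
def pos : List Ω → ℤ
  | [] => 0
  | ω :: w => pos w + (e ω : ℤ)

/-- One step of the anchor process. -/
def ancStep (k : ℕ) (st : ℕ × ℤ) (ε : ℤˣ) : ℕ × ℤ :=
  if |st.2 + (ε : ℤ)| = k then (st.1 + 1, 0) else (st.1, st.2 + (ε : ℤ))

/-- Anchor process: number of displacements by `k` and position relative to the last anchor. -/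
def anc (k : ℕ) : List Ω → ℕ × ℤ
  | [] => (0, 0)
  | ω :: w => ancStep k (anc k w) (e ω)

omit [Fintype Ω] in
theorem anc_abs_lt {k : ℕ} (hk : 0 < k) (w : List Ω) : |(anc e k w).2| < k := by
  induction w with
  | nil => simpa [anc] using hk
  | cons ω w ih =>
    simp only [anc, ancStep]
    split_ifs with h
    · simpa using hk
    · rcases Int.units_eq_one_or (e ω) with h1 | h1 <;> simp only [h1] at h ⊢ <;>
        simp only [Units.val_one, Units.val_neg] at h ⊢ <;>
        rw [abs_lt] at ih ⊢ <;>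
        rw [abs_eq (by positivity)] at h <;> omega

omit [Fintype Ω] in
theorem anc_mul_le (k : ℕ) (w : List Ω) :
    ((anc e k w).1 : ℤ) * k + |(anc e k w).2| ≤ w.length := by
  induction w with
  | nil => simp [anc]
  | cons ω w ih =>
    have h1 : |(anc e k w).2 + (e ω : ℤ)| ≤ |(anc e k w).2| + 1 := by
      refine (abs_add_le _ _).trans ?_
      simp [Int.isUnit_iff_abs_eq.mp (e ω).isUnit]
    simp only [anc, ancStep]
    split_ifs with h
    · simp only [List.length_cons]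
      push_cast
      rw [h] at h1
      simp only [abs_zero]
      nlinarith
    · simp only [List.length_cons]
      push_cast
      linarith

omit [Fintype Ω] in
theorem anc_dvd (k : ℕ) (w : List Ω) :
    (2 * k : ℤ) ∣ pos e w - (anc e k w).2 - (anc e k w).1 * k := by
  induction w with
  | nil => simp [anc, pos]
  | cons ω w ih =>
    simp only [anc, ancStep, pos]
    split_ifs with h
    · rw [abs_eq (by positivity)] at h
      obtain ⟨c, hc⟩ := ih
      rcases h with h | h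
      · exact ⟨c, by push_cast; linarith⟩
      · exact ⟨c - 1, by push_cast; linarith⟩
    · obtain ⟨c, hc⟩ := ih
      exact ⟨c, by linarith⟩

omit [Fintype Ω] in
theorem abs_anchor_le (k : ℕ) (w : List Ω) :
    |pos e w - (anc e k w).2| ≤ (anc e k w).1 * k := by
  induction w with
  | nil => simp [anc, pos]
  | cons ω w ih =>
    simp only [anc, ancStep, pos]
    split_ifs with h
    · have : pos e w + (e ω : ℤ) - 0 = (pos e w - (anc e k w).2) + ((anc e k w).2 + e ω) := by ring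
      rw [this]
      refine (abs_add_le _ _).trans ?_
      push_cast
      rw [h]; linarith
    · have : pos e w + (e ω : ℤ) - ((anc e k w).2 + e ω) = (pos e w - (anc e k w).2) := by ring
      rw [this]; exact ih

variable [Nonempty Ω] (he : ∀ g : ℤˣ → ℝ, av (fun ω => g (e ω)) = (g 1 + g (-1)) / 2)
include he

theorem EW_pos_sq (n : ℕ) : EW n (fun w => ((pos e w : ℤ) : ℝ) ^ 2) = n := by
  induction n with
  | zero => simp [EW, pos]
  | succ n ih =>
    rw [EW]
    have : ∀ w : List Ω, av (fun ω => ((pos e (ω :: w) : ℤ) : ℝ) ^ 2)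
        = ((pos e w : ℤ) : ℝ) ^ 2 + 1 := by
      intro w
      simp only [pos]
      rw [he (fun ε => (((pos e w + (ε : ℤ) : ℤ)) : ℝ) ^ 2)]
      push_cast
      ring
    simp only [this, EW_add, ih, EW_const]
    push_cast; ring

theorem EW_pos_four (n : ℕ) : EW n (fun w => ((pos e w : ℤ) : ℝ) ^ 4) ≤ 3 * (n : ℝ) ^ 2 := by
  induction n with
  | zero => simp [EW, pos]
  | succ n ih =>
    rw [EW]
    have : ∀ w : List Ω, av (fun ω => ((pos e (ω :: w) : ℤ) : ℝ) ^ 4)
        = ((pos e w : ℤ) : ℝ) ^ 4 + (6 * ((pos e w : ℤ) : ℝ) ^ 2 + 1) := by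
      intro w
      simp only [pos]
      rw [he (fun ε => (((pos e w + (ε : ℤ) : ℤ)) : ℝ) ^ 4)]
      push_cast
      ring
    simp only [this, EW_add, EW_mul, EW_pos_sq e he, EW_const]
    push_cast
    nlinarith

theorem EW_abs_pos (n : ℕ) : √(n : ℝ) / 4 ≤ EW n (fun w => |((pos e w : ℤ) : ℝ)|) := by
  rcases Nat.eq_zero_or_pos n with rfl | hn
  · simp [EW, pos]
  set r : ℝ := √(n : ℝ) with hr
  have hr0 : 0 < r := Real.sqrt_pos.mpr (by exact_mod_cast hn)
  have hr2 : r ^ 2 = n := Real.sq_sqrt (Nat.cast_nonneg _)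
  have key : ∀ x : ℝ, (1 / r) * x ^ 2 - (1 / (4 * r ^ 3)) * x ^ 4 ≤ |x| := by
    intro x
    have h1 : x ^ 2 = |x| ^ 2 := (sq_abs x).symm
    have h2 : x ^ 4 = |x| ^ 4 := by
      have : x ^ 4 = (x ^ 2) ^ 2 := by ring
      rw [this, h1]; ring
    rw [h1, h2]
    set y := |x| with hy
    have hy0 : 0 ≤ y := abs_nonneg x
    have h3 : 0 ≤ 4 * r ^ 3 - 4 * r ^ 2 * y + y ^ 3 := by
      nlinarith [mul_nonneg hy0 (sq_nonneg (y - r)), mul_nonneg hr0.le (sq_nonneg (y - r)),
        mul_nonneg hr0.le (sq_nonneg (5 * y - 6 * r)), mul_nonneg hy0 (sq_nonneg (5 * y - 6 * r)),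
        pow_pos hr0 3]
    have h4 : 1 / r * y ^ 2 - 1 / (4 * r ^ 3) * y ^ 4
        = y - y * (4 * r ^ 3 - 4 * r ^ 2 * y + y ^ 3) / (4 * r ^ 3) := by
      field_simp
      ring
    rw [h4]
    have : 0 ≤ y * (4 * r ^ 3 - 4 * r ^ 2 * y + y ^ 3) / (4 * r ^ 3) := by positivity
    linarith
  refine le_trans ?_ (EW_mono n fun w _ => key _)
  rw [EW_sub, EW_mul, EW_mul, EW_pos_sq e he]
  have h4 := EW_pos_four e he n
  have h5 : 1 / (4 * r ^ 3) * EW n (fun w => ((pos e w : ℤ) : ℝ) ^ 4)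
      ≤ 1 / (4 * r ^ 3) * (3 * (n : ℝ) ^ 2) := by gcongr
  have h6 : 1 / (4 * r ^ 3) * (3 * (n : ℝ) ^ 2) = 3 / 4 * r := by
    rw [← hr2]; field_simp
  have h7 : 1 / r * (n : ℝ) = r := by rw [← hr2]; field_simp
  linarith

omit [Fintype Ω] [Nonempty Ω] he in
theorem ancStep_pot (k : ℕ) (st : ℕ × ℤ) (ε : ℤˣ) :
    (k : ℝ) ^ 2 * ((ancStep k st ε).1 : ℝ) + (((ancStep k st ε).2 : ℤ) : ℝ) ^ 2
      = (k : ℝ) ^ 2 * (st.1 : ℝ) + (((st.2 + (ε : ℤ) : ℤ)) : ℝ) ^ 2 := by
  unfold ancStep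
  split_ifs with h
  · have : (((st.2 + (ε : ℤ) : ℤ)) : ℝ) ^ 2 = (k : ℝ) ^ 2 := by
      have h2 : (st.2 + (ε : ℤ)) ^ 2 = (k : ℤ) ^ 2 := by rw [← h, sq_abs]
      exact_mod_cast h2
    rw [this]; push_cast; ring
  · rfl

theorem EW_anc_pot (k n : ℕ) :
    EW n (fun w => (k : ℝ) ^ 2 * ((anc e k w).1 : ℝ) + (((anc e k w).2 : ℤ) : ℝ) ^ 2) = n := by
  induction n with
  | zero => simp [EW, anc]
  | succ n ih =>
    rw [EW]
    have : ∀ w : List Ω, av (fun ω => (k : ℝ) ^ 2 * ((anc e k (ω :: w)).1 : ℝ)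
        + (((anc e k (ω :: w)).2 : ℤ) : ℝ) ^ 2)
        = ((k : ℝ) ^ 2 * ((anc e k w).1 : ℝ) + (((anc e k w).2 : ℤ) : ℝ) ^ 2) + 1 := by
      intro w
      simp only [anc, ancStep_pot]
      rw [he (fun ε => (k : ℝ) ^ 2 * ((anc e k w).1 : ℝ)
        + ((((anc e k w).2 + (ε : ℤ) : ℤ)) : ℝ) ^ 2)]
      push_cast
      ring
    simp only [this]
    rw [EW_add, ih, EW_const]
    push_cast; ring

theorem EW_anc_le {k : ℕ} (hk : 0 < k) (n : ℕ) :
    EW n (fun w => ((anc e k w).1 : ℝ)) ≤ n / (k : ℝ) ^ 2 := by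
  have hk' : (0 : ℝ) < (k : ℝ) ^ 2 := by positivity
  rw [le_div_iff₀ hk', mul_comm, ← EW_mul, ← EW_anc_pot e he k n]
  exact EW_mono n fun w _ => by nlinarith [sq_nonneg (((anc e k w).2 : ℤ) : ℝ)]

theorem EW_anc_lt {k : ℕ} (hk : 0 < k) (j n : ℕ) :
    n * EW n (fun w => if (anc e k w).1 < j then (1 : ℝ) else 0) ≤ (k : ℝ) ^ 2 * j := by
  let ψ : ℕ × ℤ → ℝ := fun st =>
    if st.1 < j then (k : ℝ) ^ 2 * (st.1 : ℝ) + ((st.2 : ℤ) : ℝ) ^ 2 else (k : ℝ) ^ 2 * j
  have h1 : ∀ n : ℕ, 0 ≤ EW n (fun w => ψ (anc e k w)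
      - n * (if (anc e k w).1 < j then (1 : ℝ) else 0)) := by
    intro n
    induction n with
    | zero =>
      simp only [EW, anc, ψ]
      split_ifs <;> simp
      positivity
    | succ n ih =>
      rw [EW]
      refine ih.trans (EW_mono n fun w _ => ?_)
      refine le_trans ?_ (he (fun ε => ψ (ancStep k (anc e k w) ε)
        - ((n + 1 : ℕ) : ℝ) * (if (ancStep k (anc e k w) ε).1 < j then (1 : ℝ) else 0))).ge
      set st := anc e k w with hst
      by_cases hj : st.1 < j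
      · have a1 : ∀ ε : ℤˣ, ψ (ancStep k st ε)
            = (k : ℝ) ^ 2 * (st.1 : ℝ) + (((st.2 + (ε : ℤ) : ℤ)) : ℝ) ^ 2 := by
          intro ε
          rw [← ancStep_pot]
          simp only [ψ]
          split_ifs with h
          · rfl
          · unfold ancStep at h ⊢
            split_ifs at h ⊢ with h'
            · have : st.1 + 1 = j := by simp at h; omega
              simp [← this]
            · exact absurd hj h
        have a2 : ∀ ε : ℤˣ, ((n + 1 : ℕ) : ℝ) * (if (ancStep k st ε).1 < j then (1 : ℝ) else 0)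
            ≤ (n : ℝ) + 1 := by
          intro ε
          push_cast
          split_ifs
          · simp
          · simp; positivity
        have b1 := a2 1
        have b2 := a2 (-1)
        rw [a1, a1]
        simp only [ψ, hj, if_true]
        push_cast at *
        nlinarith
      · have a1 : ∀ ε : ℤˣ, ¬ (ancStep k st ε).1 < j := by
          intro ε
          unfold ancStep
          split_ifs <;> simp <;> omega
        simp [ψ, hj, a1]
  have h2 : ∀ w : List Ω, ψ (anc e k w) ≤ (k : ℝ) ^ 2 * j := by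
    intro w
    simp only [ψ]
    split_ifs with h
    · have h3 := anc_abs_lt e hk w
      have h4 : ((anc e k w).2) ^ 2 ≤ (k : ℤ) ^ 2 := by
        rw [← sq_abs]; exact pow_le_pow_left₀ (abs_nonneg _) h3.le 2
      have h5 : (((anc e k w).2 : ℤ) : ℝ) ^ 2 ≤ (k : ℝ) ^ 2 := by exact_mod_cast h4
      have h6 : ((anc e k w).1 : ℝ) + 1 ≤ j := by exact_mod_cast h
      nlinarith [sq_nonneg (k : ℝ)]
    · exact le_rfl
  have h3 := h1 n
  rw [EW_sub, EW_mul] at h3
  have h4 : EW n (fun w => ψ (anc e k w)) ≤ (k : ℝ) ^ 2 * j := by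
    rw [← EW_const (Ω := Ω) n ((k : ℝ) ^ 2 * j)]
    exact EW_mono n fun w _ => h2 w
  linarith

end Anchor

end Pool.Agent.MP_d05e11_al
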