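import Pool.Agent.MP_d05e11_al.Avg

namespace Pool.Agent.MP_d05e11_al

open Finset

theorem centralBinom_sq_le (j : ℕ) :
    ((Nat.centralBinom j : ℝ) / 4 ^ j) ^ 2 * (2 * j + 1) ≤ 1 := by
  induction j with
  | zero => simp
  | succ j ih =>
    have h : ((j : ℝ) + 1) * (Nat.centralBinom (j + 1) : ℝ)
        = 2 * (2 * j + 1) * (Nat.centralBinom j : ℝ) := by
      exact_mod_cast Nat.succ_mul_centralBinom_succ j
    have h1 : (Nat.centralBinom (j + 1) : ℝ) / 4 ^ (j + 1)
        = (Nat.centralBinom j : ℝ) / 4 ^ j * ((2 * j + 1) / (2 * j + 2)) := by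
      have : (Nat.centralBinom (j + 1) : ℝ)
          = 2 * (2 * j + 1) * (Nat.centralBinom j : ℝ) / (j + 1) := by
        rw [← h]; field_simp
      rw [this]
      field_simp
      ring
    rw [h1, mul_pow]
    set c := ((Nat.centralBinom j : ℝ) / 4 ^ j) ^ 2 with hc
    have hc0 : 0 ≤ c := sq_nonneg _
    have h2 : ((2 * (j : ℝ) + 1) / (2 * j + 2)) ^ 2 * (2 * ((j + 1 : ℕ) : ℝ) + 1) ≤ 2 * j + 1 := by
      rw [div_pow, div_mul_eq_mul_div, div_le_iff₀ (by positivity)]
      push_cast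
      have : (0 : ℝ) ≤ j := Nat.cast_nonneg j
      nlinarith
    calc c * ((2 * (j : ℝ) + 1) / (2 * j + 2)) ^ 2 * (2 * ((j + 1 : ℕ) : ℝ) + 1)
        = c * (((2 * (j : ℝ) + 1) / (2 * j + 2)) ^ 2 * (2 * ((j + 1 : ℕ) : ℝ) + 1)) := by ring
      _ ≤ c * (2 * j + 1) := by gcongr
      _ ≤ 1 := ih

theorem tv_choose (j : ℕ) :
    1 + ∑ i ∈ range (2 * j + 1), |(((2 * j).choose (i + 1) : ℕ) : ℝ) - ((2 * j).choose i : ℕ)|
      = 2 * (Nat.centralBinom j : ℝ) := by
  have up : ∀ N, N ≤ j → ∑ i ∈ range N, |(((2 * j).choose (i + 1) : ℕ) : ℝ) - ((2 * j).choose i : ℕ)|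
      = ((2 * j).choose N : ℕ) - 1 := by
    intro N hN
    induction N with
    | zero => simp
    | succ N ih =>
      rw [sum_range_succ, ih (by omega)]
      have : (2 * j).choose N ≤ (2 * j).choose (N + 1) :=
        Nat.choose_le_succ_of_lt_half_left (by omega)
      have : (((2 * j).choose N : ℕ) : ℝ) ≤ ((2 * j).choose (N + 1) : ℕ) := by exact_mod_cast this
      rw [abs_of_nonneg (by linarith)]
      ring
  have down : ∀ N, j ≤ N →
      ∑ i ∈ range N, |(((2 * j).choose (i + 1) : ℕ) : ℝ) - ((2 * j).choose i : ℕ)|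
      = 2 * ((2 * j).choose j : ℕ) - ((2 * j).choose N : ℕ) - 1 := by
    intro N hN
    induction N, hN using Nat.le_induction with
    | base => rw [up j le_rfl]; ring
    | succ N hN ih =>
      rw [sum_range_succ, ih]
      have : (2 * j).choose (N + 1) ≤ (2 * j).choose N := by
        have h1 := Nat.choose_succ_right_eq (2 * j) N
        have h2 : (2 * j).choose N * (2 * j - N) ≤ (2 * j).choose N * (N + 1) :=
          Nat.mul_le_mul_left _ (by omega)
        exact Nat.le_of_mul_le_mul_right (h1 ▸ h2) (Nat.succ_pos N)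
      have : (((2 * j).choose (N + 1) : ℕ) : ℝ) ≤ ((2 * j).choose N : ℕ) := by exact_mod_cast this
      rw [abs_of_nonpos (by linarith)]
      ring
  rw [down (2 * j + 1) (by omega), Nat.choose_succ_self, Nat.centralBinom_eq_two_mul_choose]
  simp

section
variable {m : ℕ} [NeZero m]

/-- Binomial smoothing on the cycle. -/
def Hs (h : ZMod m → ℝ) (n : ℕ) (y : ZMod m) : ℝ :=
  ∑ i ∈ range (n + 1), (n.choose i : ℝ) * h (y + (i : ℕ))

omit [NeZero m] in
theorem Hs_succ (h : ZMod m → ℝ) (n : ℕ) (y : ZMod m) :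
    Hs h (n + 1) y = Hs h n y + Hs h n (y + 1) := by
  unfold Hs
  have := Finset.sum_choose_succ_mul (R := ℝ) (fun i _ => h (y + (i : ℕ))) n
  rw [this]
  congr 1
  refine sum_congr rfl fun i _ => ?_
  push_cast
  congr 2
  ring

/-- Lazy simple random walk operator on the cycle. -/
noncomputable def K1 (h : ZMod m → ℝ) : ZMod m → ℝ :=
  fun y => (2 * h y + h (y + 1) + h (y - 1)) / 4

omit [NeZero m] in
theorem K1_iter (h : ZMod m → ℝ) (j : ℕ) (y : ZMod m) :
    (K1^[j] h) y = Hs h (2 * j) (y - (j : ℕ)) / 4 ^ j := by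
  induction j generalizing y with
  | zero => simp [Hs]
  | succ j ih =>
    rw [Function.iterate_succ_apply', K1, ih, ih, ih]
    have e1 : 2 * (j + 1) = 2 * j + 1 + 1 := by ring
    rw [e1, Hs_succ, Hs_succ, Hs_succ]
    have a1 : y - ((j + 1 : ℕ) : ZMod m) = y - 1 - (j : ℕ) := by push_cast; ring
    have a2 : y - ((j + 1 : ℕ) : ZMod m) + 1 = y - (j : ℕ) := by push_cast; ring
    have a3 : y - (j : ℕ) + 1 = y + 1 - (j : ℕ) := by ring
    rw [a2, a1, a3]
    field_simp
    ring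

theorem le_avg_add_tv (Q : ZMod m → ℝ) (y : ZMod m) :
    Q y ≤ (∑ x, Q x) / m + ∑ x, |Q (x + 1) - Q x| := by
  have hm : (0 : ℝ) < m := by exact_mod_cast Nat.pos_of_ne_zero (NeZero.ne m)
  set V := ∑ x, |Q (x + 1) - Q x| with hV
  have h1 : ∀ x, Q y ≤ Q x + V := by
    intro x
    have tel : ∀ d : ℕ, Q (x + (d : ℕ)) ≤ Q x + ∑ i ∈ range d, |Q (x + (i : ℕ) + 1) - Q (x + (i : ℕ))| := by
      intro d
      induction d with
      | zero => simp
      | succ d ih =>
        rw [sum_range_succ]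
        have : x + ((d + 1 : ℕ) : ZMod m) = x + (d : ℕ) + 1 := by push_cast; ring
        rw [this]
        have := le_abs_self (Q (x + (d : ℕ) + 1) - Q (x + (d : ℕ)))
        linarith
    have h2 := tel (y - x).val
    rw [ZMod.natCast_zmod_val, add_sub_cancel] at h2
    refine h2.trans (add_le_add le_rfl ?_)
    have hinj : Set.InjOn (fun i : ℕ => x + (i : ZMod m)) (range (y - x).val : Finset ℕ) := by
      intro a ha b hb hab
      have ha' : a < m := (mem_range.mp (by exact_mod_cast ha)).trans (ZMod.val_lt _)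
      have hb' : b < m := (mem_range.mp (by exact_mod_cast hb)).trans (ZMod.val_lt _)
      have h3 : (a : ZMod m) = b := add_left_cancel hab
      have h4 := congrArg ZMod.val h3
      rwa [ZMod.val_natCast_of_lt ha', ZMod.val_natCast_of_lt hb'] at h4
    rw [← Finset.sum_image (f := fun u => |Q (u + 1) - Q u|) hinj]
    exact sum_le_sum_of_subset_of_nonneg (subset_univ _) fun _ _ _ => abs_nonneg _
  have h3 : ∑ _x : ZMod m, Q y ≤ ∑ x, (Q x + V) := sum_le_sum fun x _ => h1 x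
  rw [sum_add_distrib, sum_const, sum_const, card_univ, ZMod.card, nsmul_eq_mul,
    nsmul_eq_mul] at h3
  rw [div_add' _ _ _ hm.ne', le_div_iff₀ hm]
  linarith

/-- Indicator of a point. -/
def ind {X : Type} [DecidableEq X] (z : X) : X → ℝ := fun x => if x = z then 1 else 0

theorem sum_ind_shift (z c : ZMod m) : ∑ x, ind z (x + c) = 1 := by
  have := Equiv.sum_comp (Equiv.addRight c) (ind z)
  simp only [Equiv.coe_addRight] at this
  rw [this]
  simp [ind]

theorem Hs_ind_le (z : ZMod m) (j : ℕ) (y : ZMod m) :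
    Hs (ind z) (2 * j) y ≤ 4 ^ j / m + 2 * (Nat.centralBinom j : ℝ) := by
  refine (le_avg_add_tv _ y).trans (add_le_add (le_of_eq ?_) ?_)
  · congr 1
    unfold Hs
    rw [sum_comm]
    simp only [← mul_sum, sum_ind_shift, mul_one]
    have := Nat.sum_range_choose (2 * j)
    have h2 : ∑ i ∈ range (2 * j + 1), ((2 * j).choose i : ℝ) = ((2 ^ (2 * j) : ℕ) : ℝ) := by
      exact_mod_cast this
    rw [h2]; push_cast; rw [pow_mul]; norm_num
  · rw [← tv_choose]
    have h1 : ∀ x : ZMod m, |Hs (ind z) (2 * j) (x + 1) - Hs (ind z) (2 * j) x|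
        ≤ ind z (x + 0) + ∑ i ∈ range (2 * j + 1),
          |(((2 * j).choose (i + 1) : ℕ) : ℝ) - ((2 * j).choose i : ℕ)| * ind z (x + ((i + 1 : ℕ))) := by
      intro x
      have e1 : Hs (ind z) (2 * j) x = ind z (x + 0) + ∑ i ∈ range (2 * j + 1),
          (((2 * j).choose (i + 1) : ℕ) : ℝ) * ind z (x + ((i + 1 : ℕ))) := by
        have := sum_range_succ' (fun i => (((2 * j).choose i : ℕ) : ℝ) * ind z (x + (i : ℕ)))
          (2 * j + 1)
        rw [sum_range_succ, Nat.choose_succ_self] at this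
        simp only [Nat.cast_zero, zero_mul, add_zero, Nat.choose_zero_right, Nat.cast_one,
          one_mul] at this
        unfold Hs
        rw [this, add_zero, add_comm]
      have e2 : Hs (ind z) (2 * j) (x + 1) = ∑ i ∈ range (2 * j + 1),
          (((2 * j).choose i : ℕ) : ℝ) * ind z (x + ((i + 1 : ℕ))) := by
        unfold Hs
        refine sum_congr rfl fun i _ => ?_
        push_cast
        congr 2
        ring
      have hi : ∀ u : ZMod m, 0 ≤ ind z u := by
        intro u; unfold ind; split_ifs <;> norm_num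
      rw [abs_sub_comm, e1, e2, add_sub_assoc, ← sum_sub_distrib]
      refine (abs_add_le _ _).trans (add_le_add (abs_of_nonneg (hi _)).le ?_)
      refine (abs_sum_le_sum_abs _ _).trans (sum_le_sum fun i _ => ?_)
      rw [← sub_mul, abs_mul, abs_of_nonneg (hi _)]
    refine (sum_le_sum fun x _ => h1 x).trans (le_of_eq ?_)
    rw [sum_add_distrib, sum_ind_shift, sum_comm]
    simp only [← mul_sum, sum_ind_shift, mul_one]

omit [NeZero m] in
theorem K1_ind_nonneg (z : ZMod m) (j : ℕ) (y : ZMod m) : 0 ≤ (K1^[j] (ind z)) y := by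
  rw [K1_iter]
  refine div_nonneg (sum_nonneg fun i _ => mul_nonneg (Nat.cast_nonneg _) ?_) (by positivity)
  unfold ind; split_ifs <;> norm_num

theorem K1_ind_le (z : ZMod m) (j : ℕ) (y : ZMod m) :
    (K1^[j] (ind z)) y ≤ 1 / m + 2 * ((Nat.centralBinom j : ℝ) / 4 ^ j) := by
  rw [K1_iter, div_le_iff₀ (by positivity)]
  refine (Hs_ind_le z j _).trans (le_of_eq ?_)
  field_simp

omit [NeZero m] in
theorem q_four_le (j : ℕ) :
    (1 / m + 2 * ((Nat.centralBinom j : ℝ) / 4 ^ j)) ^ 4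
      ≤ 8 / (m : ℝ) ^ 4 + 128 / (2 * (j : ℝ) + 1) ^ 2 := by
  set c := (Nat.centralBinom j : ℝ) / 4 ^ j with hc
  have h1 : c ^ 2 * (2 * j + 1) ≤ 1 := centralBinom_sq_le j
  have hj : (0 : ℝ) < 2 * j + 1 := by positivity
  have h2 : c ^ 2 ≤ 1 / (2 * j + 1) := by rw [le_div_iff₀ hj]; exact h1
  have h3 : c ^ 4 ≤ 1 / (2 * (j : ℝ) + 1) ^ 2 := by
    calc c ^ 4 = (c ^ 2) ^ 2 := by ring
      _ ≤ (1 / (2 * (j : ℝ) + 1)) ^ 2 := by gcongr
      _ = _ := by rw [div_pow, one_pow]
  set a := 1 / (m : ℝ) with ha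
  have h4 : (a + 2 * c) ^ 4 ≤ 8 * a ^ 4 + 128 * c ^ 4 := by
    nlinarith [sq_nonneg (a - 2 * c), sq_nonneg (a ^ 2 - 4 * c ^ 2), sq_nonneg (a + 2 * c),
      sq_nonneg ((a - 2 * c) * (a + 2 * c)), sq_nonneg ((a - 2 * c) ^ 2)]
  have h5 : 8 * a ^ 4 = 8 / (m : ℝ) ^ 4 := by rw [ha]; ring
  have h6 : 128 * (1 / (2 * (j : ℝ) + 1) ^ 2) = 128 / (2 * (j : ℝ) + 1) ^ 2 := by ring
  linarith

theorem sum_inv_odd_sq (t : ℕ) :
    ∑ j ∈ range (t + 1), 128 / (2 * (j : ℝ) + 1) ^ 2 ≤ 160 - 32 / ((t : ℝ) + 1) := by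
  induction t with
  | zero => norm_num
  | succ t ih =>
    rw [sum_range_succ]
    have : 128 / (2 * ((t + 1 : ℕ) : ℝ) + 1) ^ 2
        ≤ 32 / ((t : ℝ) + 1) - 32 / (((t + 1 : ℕ) : ℝ) + 1) := by
      push_cast
      have ht : (0 : ℝ) ≤ t := Nat.cast_nonneg t
      rw [div_sub_div _ _ (by positivity) (by positivity), div_le_div_iff₀ (by positivity)
        (by positivity)]
      nlinarith
    linarith

end

end Pool.Agent.MP_d05e11_al
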