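import Mathlib

namespace Pool.Agent.MP_d05e11_al

/-- Word length of `g` with respect to the finite set `S`: the least length of a list of
elements of `S` whose product is `g`. -/
noncomputable def wordLength {G : Type} [Group G] (S : Finset G) (g : G) : ℕ :=
  sInf {n : ℕ | ∃ l : List G, l.length = n ∧ (∀ x ∈ l, x ∈ S) ∧ l.prod = g}

/-- Speed `L_μ(n) = E |s_1 s_2 ⋯ s_n|`, the `s_i` being i.i.d. with the finitely supported
law `μ`. -/
noncomputable def speed {G : Type} [Group G] (S : Finset G) (μ : G →₀ ℝ) (n : ℕ) : ℝ :=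
  ∑ s ∈ Fintype.piFinset (fun _ : Fin n => μ.support),
    (∏ i, μ (s i)) * (wordLength S (List.ofFn s).prod : ℝ)

/-- `f ≲ g`: there is a positive integer `C` with `f n ≤ C * g (C * n)` for all `n ≥ 1`. -/
def Lesssim (f g : ℕ → ℝ) : Prop :=
  ∃ C : ℕ, 0 < C ∧ ∀ n : ℕ, 1 ≤ n → f n ≤ C * g (C * n)

end Pool.Agent.MP_d05e11_al
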