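import Pool.Agent.MP_d05e11_al.Avg

namespace Pool.Agent.MP_d05e11_al

open Finset

/-- A lamp group generated by images of `A` and `B`, with a retraction onto `A × B`. -/
structure Level (A B : Type) [CommGroup A] [CommGroup B] where
  Γ : Type
  [grp : Group Γ]
  ιA : A →* Γ
  ιB : B →* Γ
  π : Γ →* A × B
  πA : ∀ a, π (ιA a) = (a, 1)
  πB : ∀ b, π (ιB b) = (1, b)

attribute [instance] Level.grp

namespace Level
variable {A B : Type} [CommGroup A] [CommGroup B] (L : Level A B)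

/-- `γ` is a product of `n` blocks `a * b`. -/
def Bl : ℕ → L.Γ → Prop
  | 0, γ => γ = 1
  | n + 1, γ => ∃ (γ' : L.Γ) (a : A) (b : B), Bl n γ' ∧ γ = γ' * L.ιA a * L.ιB b

variable {L}

theorem Bl.succ {n : ℕ} {γ : L.Γ} (h : L.Bl n γ) : L.Bl (n + 1) γ :=
  ⟨γ, 1, 1, h, by simp⟩

theorem Bl.mono {n m : ℕ} {γ : L.Γ} (h : L.Bl n γ) (hnm : n ≤ m) : L.Bl m γ := by
  induction hnm with
  | refl => exact h
  | step _ ih => exact ih.succ

theorem Bl_one (n : ℕ) : L.Bl n 1 := Bl.mono (n := 0) rfl (Nat.zero_le n)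

theorem Bl_block (a : A) (b : B) : L.Bl 1 (L.ιA a * L.ιB b) := ⟨1, a, b, rfl, by simp⟩

theorem Bl_A (a : A) : L.Bl 1 (L.ιA a) := by simpa using Bl_block (L := L) a 1

theorem Bl_B (b : B) : L.Bl 1 (L.ιB b) := by simpa using Bl_block (L := L) 1 b

theorem Bl.mul {n m : ℕ} {γ δ : L.Γ} (h : L.Bl n γ) (h' : L.Bl m δ) : L.Bl (n + m) (γ * δ) := by
  induction m generalizing δ with
  | zero =>
    have : δ = 1 := h'
    simpa [this] using h
  | succ m ih =>
    obtain ⟨δ', a, b, h1, rfl⟩ := h'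
    exact ⟨γ * δ', a, b, ih h1, by simp [mul_assoc]⟩

theorem Bl.inv_aux {n : ℕ} {γ : L.Γ} (h : L.Bl n γ) (a₀ : A) :
    L.Bl (n + 1) (L.ιA a₀ * γ⁻¹) := by
  induction n generalizing γ a₀ with
  | zero =>
    have : γ = 1 := h
    simpa [this] using Bl_A a₀
  | succ n ih =>
    obtain ⟨γ', a, b, h1, rfl⟩ := h
    have := (Bl_block (L := L) a₀ b⁻¹).mul (ih h1 a⁻¹)
    rw [add_comm] at this
    simpa [mul_assoc] using this

theorem Bl.inv {n : ℕ} {γ : L.Γ} (h : L.Bl n γ) : L.Bl (n + 1) γ⁻¹ := by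
  simpa using h.inv_aux 1

theorem Bl.inv_two {n : ℕ} {γ : L.Γ} (h : L.Bl n γ) : L.Bl (2 * n) γ⁻¹ := by
  rcases Nat.eq_zero_or_pos n with rfl | hn
  · have : γ = 1 := h
    simpa [this] using Bl_one 0
  · exact h.inv.mono (by omega)

variable (L) [Fintype A] [Fintype B]

/-- Averaging over right multiplication by `A`. -/
noncomputable def PA : (L.Γ → ℝ) →ₗ[ℝ] (L.Γ → ℝ) where
  toFun U := fun γ => av (fun a : A => U (γ * L.ιA a))
  map_add' U V := by funext γ; simp [av_add]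
  map_smul' c U := by funext γ; simp [av_mul]

/-- Averaging over right multiplication by `B`. -/
noncomputable def PB : (L.Γ → ℝ) →ₗ[ℝ] (L.Γ → ℝ) where
  toFun U := fun γ => av (fun b : B => U (γ * L.ιB b))
  map_add' U V := by funext γ; simp [av_add]
  map_smul' c U := by funext γ; simp [av_mul]

omit [Fintype B] in
theorem PA_apply (U : L.Γ → ℝ) (γ : L.Γ) : L.PA U γ = av (fun a : A => U (γ * L.ιA a)) := rfl

omit [Fintype A] in
theorem PB_apply (U : L.Γ → ℝ) (γ : L.Γ) : L.PB U γ = av (fun b : B => U (γ * L.ιB b)) := rfl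

omit [Fintype B] in
theorem PA_PA (U : L.Γ → ℝ) : L.PA (L.PA U) = L.PA U := by
  funext γ
  rw [PA_apply]
  have : ∀ a : A, L.PA U (γ * L.ιA a) = L.PA U γ := by
    intro a
    rw [PA_apply, PA_apply, ← av_equiv (Equiv.mulLeft a) (fun a : A => U (γ * L.ιA a))]
    simp [mul_assoc]
  simp only [this, av_const]

omit [Fintype A] in
theorem PB_PB (U : L.Γ → ℝ) : L.PB (L.PB U) = L.PB U := by
  funext γ
  rw [PB_apply]
  have : ∀ a : B, L.PB U (γ * L.ιB a) = L.PB U γ := by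
    intro a
    rw [PB_apply, PB_apply, ← av_equiv (Equiv.mulLeft a) (fun a : B => U (γ * L.ιB a))]
    simp [mul_assoc]
  simp only [this, av_const]

/-- The averaging operator used at the `T`-th anchor. -/
noncomputable def Pc (T : ℕ) : (L.Γ → ℝ) →ₗ[ℝ] (L.Γ → ℝ) := if Even T then L.PA else L.PB

theorem Pc_Pc (T : ℕ) (U : L.Γ → ℝ) : L.Pc T (L.Pc T U) = L.Pc T U := by
  unfold Pc
  split_ifs
  · exact L.PA_PA U
  · exact L.PB_PB U

/-- Alternating product `P_A P_B P_A ⋯` with `T + 1` factors. -/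
noncomputable def Alt : ℕ → (L.Γ → ℝ) →ₗ[ℝ] (L.Γ → ℝ)
  | 0 => L.PA
  | T + 1 => (Alt T).comp (L.Pc (T + 1))

theorem Alt_succ (T : ℕ) (U : L.Γ → ℝ) : L.Alt (T + 1) U = L.Alt T (L.Pc (T + 1) U) := rfl

theorem Alt_Pc (T : ℕ) (U : L.Γ → ℝ) : L.Alt T (L.Pc T U) = L.Alt T U := by
  cases T with
  | zero =>
    have : L.Pc 0 = L.PA := by simp [Pc]
    rw [this]
    exact L.PA_PA U
  | succ T => rw [Alt_succ, Alt_succ, Pc_Pc]

theorem Pc_nonneg (T : ℕ) {U : L.Γ → ℝ} (hU : ∀ γ, 0 ≤ U γ) (γ : L.Γ) : 0 ≤ L.Pc T U γ := by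
  unfold Pc
  split_ifs
  · exact av_nonneg fun _ => hU _
  · exact av_nonneg fun _ => hU _

theorem Alt_nonneg (T : ℕ) {U : L.Γ → ℝ} (hU : ∀ γ, 0 ≤ U γ) (γ : L.Γ) : 0 ≤ L.Alt T U γ := by
  induction T generalizing U with
  | zero => exact av_nonneg fun _ => hU _
  | succ T ih => rw [Alt_succ]; exact ih (L.Pc_nonneg _ hU)

/-- The quantitative properties of a lamp group of size parameter `M`: diameter at most
`22 * M` blocks and linear speed up to time `M`. -/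
structure Good (M : ℕ) : Prop where
  diam : ∀ γ : L.Γ, L.Bl (22 * M) γ
  speed : ∃ N : L.Γ → ℝ, (∀ γ, 0 ≤ N γ) ∧ (∀ n γ, L.Bl n γ → N γ ≤ n) ∧
    ∀ t T : ℕ, t ≤ M → 2 * t ≤ T → ((t : ℝ) + 1) / 1000 ≤ L.Alt T N 1

end Level

end Pool.Agent.MP_d05e11_al
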