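import Pool.Agent.MP_d05e11_al.Upper

namespace Pool.Agent.MP_d05e11_al

open Finset

namespace Data
variable {A B : Type} [CommGroup A] [CommGroup B] (D : Data A B)

/-- Word length in the ambient wreath product. -/
noncomputable def len (g : D.W) : ℕ :=
  sInf {n | ∃ w : List (Om A B), w.length = n ∧ D.ev w = g}

theorem len_le {g : D.W} {n : ℕ} (h : Short g n) : D.len g ≤ n := by
  obtain ⟨w, h1, h2⟩ := h
  exact (Nat.sInf_le (s := {n | ∃ w : List (Om A B), w.length = n ∧ D.ev w = g})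
    ⟨w, rfl, h2⟩).trans h1

theorem exists_len (w : List (Om A B)) :
    ∃ w' : List (Om A B), w'.length = D.len (D.ev w) ∧ D.ev w' = D.ev w :=
  Nat.sInf_mem (s := {n | ∃ w' : List (Om A B), w'.length = n ∧ D.ev w' = D.ev w})
    ⟨w.length, w, rfl, rfl⟩

theorem abs_pos_le_length (w : List (Om A B)) : |pos dir w| ≤ w.length := by
  induction w with
  | nil => simp [pos]
  | cons ω w ih =>
    simp only [pos, List.length_cons]
    refine (abs_add_le _ _).trans ?_
    rw [Int.isUnit_iff_abs_eq.mp (dir ω).isUnit]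
    push_cast
    linarith

theorem abs_pos_le_len (w : List (Om A B)) : |pos dir w| ≤ D.len (D.ev w) := by
  obtain ⟨w', h1, h2⟩ := D.exists_len w
  rw [← h1, ← D.ev_t, ← h2, ev_t]
  exact abs_pos_le_length w'

/-- The letter received by the site `0` of level `s` in the anchor state `st`. -/
def letter (s : ℕ) (st : ℕ × ℤ) (u : A × B) : (D.L s).Γ :=
  if st.2 = 0 then (if Even st.1 then (D.L s).ιA u.1 else (D.L s).ιB u.2) else 1

theorem put_site_zero (s : ℕ) (w : List (Om A B)) (u : A × B) :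
    (D.put (pos dir w) u).1 s 0 = D.letter s (anc dir (D.k s) w) u := by
  have hk := D.kpos s
  have h1 := abs_lt.mp (anc_abs_lt dir hk w)
  obtain ⟨c, hc⟩ := anc_dvd dir (D.k s) w
  set T := (anc dir (D.k s) w).1 with hT
  set y := (anc dir (D.k s) w).2 with hy
  set t := pos dir w with ht
  have e1 : ((0 : D.Site s) = (t : D.Site s)) ↔ y = 0 ∧ Even T := by
    have := D.site_eq s 0 t
    rw [Int.cast_zero] at this
    rw [this, sub_zero]
    constructor
    · rintro ⟨d, hd⟩
      have h2 : (D.k s : ℤ) ∣ y := ⟨2 * d - T - 2 * c, by linarith⟩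
      have h3 : y = 0 := Int.eq_zero_of_abs_lt_dvd h2 (abs_lt.mpr h1)
      refine ⟨h3, ?_⟩
      have h4 : (D.k s : ℤ) * (2 * d - T - 2 * c) = 0 := by linarith
      have h5 : (2 * d - T - 2 * c : ℤ) = 0 := by
        rcases mul_eq_zero.mp h4 with h | h
        · omega
        · exact h
      rw [Nat.even_iff]
      omega
    · rintro ⟨h2, j, hj⟩
      refine ⟨c + j, ?_⟩
      have : (T : ℤ) = j + j := by exact_mod_cast hj
      rw [this] at hc
      linarith
  have e2 : ((0 : D.Site s) = ((t + D.k s : ℤ) : D.Site s)) ↔ y = 0 ∧ ¬ Even T := by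
    have := D.site_eq s 0 (t + D.k s)
    rw [Int.cast_zero] at this
    rw [this, sub_zero]
    constructor
    · rintro ⟨d, hd⟩
      have h2 : (D.k s : ℤ) ∣ y := ⟨2 * d - T - 2 * c - 1, by linarith⟩
      have h3 : y = 0 := Int.eq_zero_of_abs_lt_dvd h2 (abs_lt.mpr h1)
      refine ⟨h3, ?_⟩
      have h4 : (D.k s : ℤ) * (2 * d - T - 2 * c - 1) = 0 := by linarith
      have h5 : (2 * d - T - 2 * c - 1 : ℤ) = 0 := by
        rcases mul_eq_zero.mp h4 with h | h
        · omega
        · exact h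
      rw [Nat.even_iff]
      omega
    · rintro ⟨h2, h3⟩
      obtain ⟨j, hj⟩ := Nat.not_even_iff_odd.mp h3
      refine ⟨c + j + 1, ?_⟩
      have : (T : ℤ) = 2 * j + 1 := by exact_mod_cast hj
      rw [this] at hc
      linarith
  rw [put_fst]
  simp only [e1, e2, letter, ← hT, ← hy]
  by_cases a : y = 0 <;> by_cases b : Even T <;> simp [a, b]

variable [Fintype A] [Fintype B]

omit [CommGroup A] [CommGroup B] in
theorem av_dir [Nonempty A] [Nonempty B] (g : ℤˣ → ℝ) :
    av (fun ω : Om A B => g (dir ω)) = (g 1 + g (-1)) / 2 := by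
  rw [av_prod]
  simp only [dir]
  rw [av_const, av_prod]
  simp only [av_const]
  exact av_units g

/-- Averaging over the letter received in the anchor state `st`. -/
noncomputable def Qop (s : ℕ) (st : ℕ × ℤ) (U : (D.L s).Γ → ℝ) : (D.L s).Γ → ℝ :=
  if st.2 = 0 then (D.L s).Pc st.1 U else U

theorem av_letter (s : ℕ) (st : ℕ × ℤ) (U : (D.L s).Γ → ℝ) (γ : (D.L s).Γ) :
    av (fun u : A × B => U (γ * D.letter s st u)) = D.Qop s st U γ := by
  unfold letter Qop Level.Pc
  split_ifs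
  · rw [av_prod]
    simp only [av_const]
    rfl
  · rw [av_prod]
    simp only [av_const]
    rfl
  · simp only [mul_one, av_const]

theorem Alt_Qop (s : ℕ) (st : ℕ × ℤ) (U : (D.L s).Γ → ℝ) :
    (D.L s).Alt st.1 (D.Qop s st U) = (D.L s).Alt st.1 U := by
  unfold Qop
  split_ifs
  · exact Level.Alt_Pc _ _ _
  · rfl

theorem Alt_Qop_step (s k : ℕ) (st : ℕ × ℤ) (ε : ℤˣ) (U : (D.L s).Γ → ℝ) :
    (D.L s).Alt st.1 (D.Qop s (ancStep k st ε) U) = (D.L s).Alt (ancStep k st ε).1 U := by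
  by_cases h : |st.2 + (ε : ℤ)| = k
  · have e : ancStep k st ε = (st.1 + 1, 0) := by simp only [ancStep, if_pos h]
    rw [e]
    simp only [Qop, if_true]
    rfl
  · have e : (ancStep k st ε).1 = st.1 := by simp only [ancStep, if_neg h]
    rw [← e, Alt_Qop]

theorem EW_site_zero (s n : ℕ) (Φ : ℕ × ℤ → (D.L s).Γ → ℝ) :
    EW n (fun w : List (Om A B) =>
        av (fun a : A => Φ (anc dir (D.k s) w) ((D.L s).ιA a * (D.ev w).F.1 s 0)))
      = EW n (fun w : List (Om A B) =>
        (D.L s).Alt (anc dir (D.k s) w).1 (Φ (anc dir (D.k s) w)) 1) := by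
  induction n generalizing Φ with
  | zero =>
    simp only [EW, anc, ev, one_F, Level.Alt, Level.PA_apply]
    simp
  | succ n ih =>
    let Ψ : ℤˣ → ℕ × ℤ → (D.L s).Γ → ℝ := fun ε st =>
      D.Qop s st (D.Qop s (ancStep (D.k s) st ε) (Φ (ancStep (D.k s) st ε)))
    have e1 : ∀ w : List (Om A B), av (fun ω : Om A B => av (fun a : A =>
        Φ (anc dir (D.k s) (ω :: w)) ((D.L s).ιA a * (D.ev (ω :: w)).F.1 s 0)))
        = (1 / 2) * (av (fun a : A => Ψ 1 (anc dir (D.k s) w) ((D.L s).ιA a * (D.ev w).F.1 s 0))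
          + av (fun a : A => Ψ (-1) (anc dir (D.k s) w) ((D.L s).ιA a * (D.ev w).F.1 s 0))) := by
      intro w
      rw [av_comm, ← av_add, ← av_mul]
      congr 1
      funext a
      have e2 : ∀ ω : Om A B, (D.L s).ιA a * (D.ev (ω :: w)).F.1 s 0
          = (D.L s).ιA a * (D.ev w).F.1 s 0 * D.letter s (anc dir (D.k s) w) ω.1
            * D.letter s (ancStep (D.k s) (anc dir (D.k s) w) ω.2.1) ω.2.2 := by
        intro ω
        have h3 := D.put_site_zero s (ω :: w) ω.2.2
        simp only [pos, anc] at h3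
        rw [ev_cons_F]
        simp only [Prod.fst_mul, Pi.mul_apply, put_site_zero, h3, mul_assoc]
        rfl
      simp only [e2]
      rw [av_prod]
      have e3 : ∀ u : A × B, av (fun b : ℤˣ × (A × B) =>
          Φ (anc dir (D.k s) ((u, b) :: w)) ((D.L s).ιA a * (D.ev w).F.1 s 0
            * D.letter s (anc dir (D.k s) w) u
            * D.letter s (ancStep (D.k s) (anc dir (D.k s) w) b.1) b.2))
          = (1 / 2) * (D.Qop s (ancStep (D.k s) (anc dir (D.k s) w) 1)
              (Φ (ancStep (D.k s) (anc dir (D.k s) w) 1))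
              ((D.L s).ιA a * (D.ev w).F.1 s 0 * D.letter s (anc dir (D.k s) w) u)
            + D.Qop s (ancStep (D.k s) (anc dir (D.k s) w) (-1))
              (Φ (ancStep (D.k s) (anc dir (D.k s) w) (-1)))
              ((D.L s).ιA a * (D.ev w).F.1 s 0 * D.letter s (anc dir (D.k s) w) u)) := by
        intro u
        rw [av_prod, av_units, ← av_letter, ← av_letter]
        simp only [anc, dir]
        ring
      simp only [e3]
      rw [av_mul, av_add, av_letter, av_letter]
    have e4 : ∀ w : List (Om A B), av (fun ω : Om A B =>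
        (D.L s).Alt (anc dir (D.k s) (ω :: w)).1 (Φ (anc dir (D.k s) (ω :: w))) 1)
        = (1 / 2) * ((D.L s).Alt (anc dir (D.k s) w).1 (Ψ 1 (anc dir (D.k s) w)) 1
          + (D.L s).Alt (anc dir (D.k s) w).1 (Ψ (-1) (anc dir (D.k s) w)) 1) := by
      intro w
      simp only [Ψ, Alt_Qop, Alt_Qop_step]
      refine (av_dir (fun ε => (D.L s).Alt (ancStep (D.k s) (anc dir (D.k s) w) ε).1
        (Φ (ancStep (D.k s) (anc dir (D.k s) w) ε)) 1)).trans ?_
      ring
    simp only [EW, e1, e4, EW_mul, EW_add, ih]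

/-- The speed of the switch-walk-switch random walk. -/
noncomputable def Lw (n : ℕ) : ℝ := EW n (fun w : List (Om A B) => (D.len (D.ev w) : ℝ))

theorem Lw_le (n : ℕ) : D.Lw n ≤ n := by
  rw [← EW_const (Ω := Om A B) n (n : ℝ)]
  refine EW_mono n fun w hw => ?_
  exact_mod_cast D.len_le ⟨w, hw.le, rfl⟩

theorem sqrt_le_Lw (n : ℕ) : √(n : ℝ) / 4 ≤ D.Lw n := by
  refine (EW_abs_pos dir av_dir n).trans (EW_mono n fun w _ => ?_)
  exact_mod_cast D.abs_pos_le_len w

theorem level_le_Lw (s M : ℕ) (hG : (D.L s).Good M) (n : ℕ) (hn : 1 ≤ n) :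
    min ((n : ℝ) / D.h s) (D.h s * M) / 32000 - 2 * D.h s ≤ D.Lw n := by
  obtain ⟨N, hN0, hN1, hN2⟩ := hG.speed
  have hh : (0 : ℝ) < D.h s := by exact_mod_cast D.hpos s
  have hn' : (0 : ℝ) < n := by exact_mod_cast hn
  have hk : (D.k s : ℝ) = 2 * D.h s := by simp [k]
  set t : ℕ := min (n / (4 * D.k s ^ 2)) M with ht
  have h1 : ∀ w : List (Om A B), (D.h s : ℝ) *
      av (fun a : A => N ((D.L s).ιA a * (D.ev w).F.1 s 0)) - 2 * D.h s ≤ D.len (D.ev w) := by
    intro w
    obtain ⟨w', h1, h2⟩ := D.exists_len w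
    rw [← h1, ← h2]
    have h3 : av (fun a : A => N ((D.L s).ιA a * (D.ev w').F.1 s 0))
        ≤ ((anc dir (D.h s) w').1 : ℝ) + 2 := by
      rw [← av_const (Ω := A) (((anc dir (D.h s) w').1 : ℝ) + 2)]
      refine av_mono fun a => ?_
      have := hN1 _ _ ((Level.Bl_A a).mul (D.ev_blocks s w' 0))
      push_cast at this
      linarith
    have h4 := anc_mul_le dir (D.h s) w'
    have h5 : ((anc dir (D.h s) w').1 : ℤ) * D.h s ≤ w'.length := by
      linarith [abs_nonneg (anc dir (D.h s) w').2]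
    have h6 : ((anc dir (D.h s) w').1 : ℝ) * D.h s ≤ w'.length := by exact_mod_cast h5
    nlinarith
  refine le_trans ?_ (EW_mono n fun w _ => h1 w)
  rw [EW_sub, EW_mul, EW_const, D.EW_site_zero s n (fun _ => N)]
  have h2 : ∀ w : List (Om A B), ((t : ℝ) + 1) / 1000 *
      (1 - if (anc dir (D.k s) w).1 < 2 * t then (1 : ℝ) else 0)
      ≤ (D.L s).Alt (anc dir (D.k s) w).1 N 1 := by
    intro w
    split_ifs with h
    · simpa using Level.Alt_nonneg _ _ hN0 1
    · simpa using hN2 t _ (min_le_right _ _) (by omega)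
  have h3 := EW_mono n fun w _ => h2 w
  rw [EW_mul, EW_sub, EW_const] at h3
  have h4 := EW_anc_lt dir av_dir (D.kpos s) (2 * t) n (Ω := Om A B)
  set P := EW n (fun w : List (Om A B) => if (anc dir (D.k s) w).1 < 2 * t then (1 : ℝ) else 0)
  have h5 : t * (4 * D.k s ^ 2) ≤ n :=
    (Nat.mul_le_mul_right _ (min_le_left _ _)).trans (Nat.div_mul_le_self _ _)
  have h6 : (t : ℝ) * (4 * (D.k s : ℝ) ^ 2) ≤ n := by exact_mod_cast h5
  have h7 : P ≤ 1 / 2 := by
    push_cast at h4
    by_contra h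
    push Not at h
    nlinarith
  have h8 : min ((n : ℝ) / D.h s) (D.h s * M) ≤ 16 * D.h s * (t + 1) := by
    rcases min_cases (n / (4 * D.k s ^ 2)) M with ⟨h, _⟩ | ⟨h, _⟩
    · refine (min_le_left _ _).trans ?_
      have hk0 : 0 < 4 * D.k s ^ 2 := by have := D.kpos s; positivity
      have h9 := Nat.lt_mul_div_succ n hk0
      rw [← h, ← ht] at h9
      have h10 : (n : ℝ) < 4 * (D.k s : ℝ) ^ 2 * (t + 1) := by exact_mod_cast h9
      rw [div_le_iff₀ hh]
      rw [hk] at h10
      nlinarith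
    · refine (min_le_right _ _).trans ?_
      rw [← h, ← ht]
      have : (0 : ℝ) ≤ t := Nat.cast_nonneg t
      nlinarith
  have h9 : ((t : ℝ) + 1) / 2000 ≤ ((t : ℝ) + 1) / 1000 * (1 - P) := by
    have : (0 : ℝ) ≤ t := Nat.cast_nonneg t
    nlinarith
  have h10 := mul_le_mul_of_nonneg_left (h9.trans h3) hh.le
  linarith

theorem sum_inv_h_le (hg : ∀ s, 5 * D.h s ≤ D.h (s + 1)) (s₁ M : ℕ) :
    ∑ s ∈ range M, (if s < s₁ then (0 : ℝ) else 1 / D.h s) ≤ 5 / 4 * (1 / D.h s₁) := by
  have hh : ∀ s, (0 : ℝ) < D.h s := fun s => by exact_mod_cast D.hpos s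
  have key : ∀ M, ∑ s ∈ range M, (if s < s₁ then (0 : ℝ) else 1 / D.h s)
      ≤ if M ≤ s₁ then (0 : ℝ) else 5 / 4 * (1 / D.h s₁) - 5 / 4 * (1 / D.h M) := by
    intro M
    induction M with
    | zero => simp
    | succ M ih =>
      rw [sum_range_succ]
      have h1 : (1 : ℝ) / D.h (M + 1) ≤ 1 / 5 * (1 / D.h M) := by
        have : (5 : ℝ) * D.h M ≤ D.h (M + 1) := by exact_mod_cast hg M
        rw [div_mul_div_comm, one_mul]
        exact one_div_le_one_div_of_le (by have := hh M; positivity) this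
      by_cases h : M < s₁
      · rw [if_pos h, if_pos (by omega)]
        rw [if_pos h.le] at ih
        linarith
      · rw [if_neg h, if_neg (by omega)]
        split_ifs at ih with h2
        · have : M = s₁ := by omega
          subst this
          linarith
        · linarith
  refine (key M).trans ?_
  split_ifs
  · have := hh s₁; positivity
  · have := hh M
    have : 0 ≤ 5 / 4 * (1 / (D.h M : ℝ)) := by positivity
    linarith

theorem Lw_upper (hg : ∀ s, 5 * D.h s ≤ D.h (s + 1)) (M : ℕ → ℕ)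
    (hG : ∀ s, (D.L s).Good (M s)) (s₁ n : ℕ) (hn : 1 ≤ n) :
    D.Lw n ≤ 352 * ∑ s ∈ range s₁, (D.h s : ℝ) * M s + 320 * (n / D.h s₁) + 27 * √(n : ℝ) := by
  have hh : ∀ s, (0 : ℝ) < D.h s := fun s => by exact_mod_cast D.hpos s
  have hn' : (0 : ℝ) < n := by exact_mod_cast hn
  set r : ℕ := Nat.sqrt n + 1 with hr
  have hr0 : 0 < r := Nat.succ_pos _
  have h1 : ∀ w : List (Om A B), w.length = n → (D.len (D.ev w) : ℝ)
      ≤ (352 * ∑ s ∈ range s₁, (D.h s : ℝ) * M s + ∑ s ∈ range n,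
        (if s < s₁ then 0 else 256 * (D.h s : ℝ)) * ((anc dir (D.h s) w).1 : ℝ))
        + (9 * r * ((anc dir r w).1 : ℝ) + 9 * r) := by
    intro w hw
    have h2 := D.len_le (D.ev_short hg (fun s => 22 * M s) (fun s => (hG s).diam) s₁ hr0 w)
    rw [hw] at h2
    have h3 : (D.len (D.ev w) : ℝ) ≤ ((((∑ s ∈ range n,
        if s < s₁ then 8 * D.k s * (22 * M s) else 32 * D.k s * (4 * (anc dir (D.h s) w).1))
        + 9 * (((anc dir r w).1 + 1) * r)) : ℕ) : ℝ) := by exact_mod_cast h2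
    refine h3.trans ?_
    push_cast
    refine add_le_add ?_ (le_of_eq (by ring))
    have h4 : ∀ s ∈ range n, (if s < s₁ then (8 * D.k s * (22 * M s) : ℝ)
        else 32 * D.k s * (4 * (anc dir (D.h s) w).1))
        = (if s < s₁ then 352 * ((D.h s : ℝ) * M s) else 0)
          + (if s < s₁ then 0 else 256 * (D.h s : ℝ)) * ((anc dir (D.h s) w).1 : ℝ) := by
      intro s _
      simp only [k]
      push_cast
      split_ifs <;> ring
    rw [sum_congr rfl h4, sum_add_distrib, ← sum_filter, mul_sum]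
    refine add_le_add (sum_le_sum_of_subset_of_nonneg ?_ fun s _ _ => ?_) le_rfl
    · intro s hs
      exact mem_range.mpr (mem_filter.mp hs).2
    · have := hh s; positivity
  refine (EW_mono n h1).trans ?_
  rw [EW_add, EW_add, EW_add, EW_const, EW_const, EW_mul, EW_sum]
  have h2 : ∑ s ∈ range n, EW n (fun w : List (Om A B) =>
      (if s < s₁ then 0 else 256 * (D.h s : ℝ)) * ((anc dir (D.h s) w).1 : ℝ))
      ≤ ∑ s ∈ range n, 256 * n * (if s < s₁ then (0 : ℝ) else 1 / D.h s) := by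
    refine sum_le_sum fun s _ => ?_
    rw [EW_mul]
    split_ifs
    · simp
    · have h3 := EW_anc_le dir av_dir (D.hpos s) n (Ω := Om A B)
      have h4 := hh s
      refine (mul_le_mul_of_nonneg_left h3 (by positivity)).trans (le_of_eq ?_)
      field_simp
  rw [← mul_sum] at h2
  have h3 := mul_le_mul_of_nonneg_left (D.sum_inv_h_le hg s₁ n) (by positivity : (0 : ℝ) ≤ 256 * n)
  have h4 := EW_anc_le dir av_dir hr0 n (Ω := Om A B)
  have hr1 : (0 : ℝ) < r := by exact_mod_cast hr0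
  have h5 : √(n : ℝ) ≤ r := by
    rw [Real.sqrt_le_left hr1.le]
    exact_mod_cast (Nat.lt_succ_sqrt' n).le
  have h6 : (1 : ℝ) ≤ √(n : ℝ) := by
    rw [Real.one_le_sqrt]; exact_mod_cast hn
  have h7 : (r : ℝ) ≤ 2 * √(n : ℝ) := by
    have : ((Nat.sqrt n : ℕ) : ℝ) ≤ √(n : ℝ) := by
      refine Real.le_sqrt_of_sq_le ?_
      exact_mod_cast Nat.sqrt_le' n
    rw [hr]; push_cast; linarith
  have h8 : 9 * (r : ℝ) * (n / (r : ℝ) ^ 2) ≤ 9 * √(n : ℝ) := by
    have : 9 * (r : ℝ) * (n / (r : ℝ) ^ 2) = 9 * (n / r) := by field_simp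
    rw [this]
    have h9 : (n : ℝ) / r ≤ √(n : ℝ) := by
      rw [div_le_iff₀ hr1]
      have := Real.mul_self_sqrt hn'.le
      nlinarith
    linarith
  have h9 := mul_le_mul_of_nonneg_left h4 (by positivity : (0 : ℝ) ≤ 9 * r)
  have h10 : 256 * (n : ℝ) * (5 / 4 * (1 / D.h s₁)) = 320 * (n / D.h s₁) := by ring
  linarith

end Data

end Pool.Agent.MP_d05e11_al
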