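import Pool.Agent.MP_d05e11_al.Torus

namespace Pool.Agent.MP_d05e11_al

open Finset

namespace Tor
variable {m : ℕ}

/-- Lazy random walk operator on the torus. -/
noncomputable def KX (h : TX m → ℝ) : TX m → ℝ :=
  fun x => av (fun σ : SB => av (fun η : SB => h (x + σ • bit η)))

theorem KX_add (h g : TX m → ℝ) : KX (fun x => h x + g x) = fun x => KX h x + KX g x := by
  funext x; simp only [KX, av_add]

theorem KX_sum {ι : Type} (s : Finset ι) (h : ι → TX m → ℝ) (x : TX m) :
    KX (fun x => ∑ i ∈ s, h i x) x = ∑ i ∈ s, KX (h i) x := by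
  simp only [KX, av_sum]

theorem KX_prod (h : Fin 4 → ZMod m → ℝ) :
    KX (fun x => ∏ i, h i (x i)) = fun x => ∏ i, K1 (h i) (x i) := by
  funext x
  have e1 : ∀ σ : SB, av (fun η : SB => ∏ i, h i ((x + σ • bit η : TX m) i))
      = ∏ i, av (fun ε : ℤˣ => h i (x i + σ i • (if ε = 1 then (0 : ZMod m) else 1))) := by
    intro σ
    rw [← av_pi (fun i (ε : ℤˣ) => h i (x i + σ i • (if ε = 1 then (0 : ZMod m) else 1)))]
    rfl
  simp only [KX, e1]
  rw [av_pi (fun i (s : ℤˣ) =>
    av (fun ε : ℤˣ => h i (x i + s • (if ε = 1 then (0 : ZMod m) else 1))))]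
  refine prod_congr rfl fun i _ => ?_
  simp only [av_units, K1]
  have : ((-1 : ℤˣ) = 1) = False := by simp
  simp only [this, if_true, if_false, smul_zero, add_zero, one_smul, Units.neg_smul,
    ← sub_eq_add_neg]
  ring

theorem KX_iter_ind (z : TX m) (j : ℕ) :
    KX^[j] (ind z) = fun x => ∏ i, (K1^[j] (ind (z i))) (x i) := by
  induction j with
  | zero =>
    funext x
    simp only [Function.iterate_zero, id, ind]
    rw [Finset.prod_ite_zero]
    simp [funext_iff]
  | succ j ih =>
    rw [Function.iterate_succ_apply', ih, KX_prod]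
    simp only [Function.iterate_succ_apply']

/-- Truncated Green function. -/
noncomputable def gr (z : TX m) : ℕ → TX m → ℝ
  | 0 => ind z
  | t + 1 => fun x => ind z x + KX (gr z t) x

theorem gr_eq (z : TX m) (t : ℕ) :
    gr z t = fun x => ∑ j ∈ range (t + 1), (KX^[j] (ind z)) x := by
  induction t with
  | zero => funext x; simp [gr]
  | succ t ih =>
    funext x
    simp only [gr]
    rw [ih, KX_sum, sum_range_succ' _ (t + 1), add_comm]
    simp only [Function.iterate_succ_apply', Function.iterate_zero, id]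

variable [NeZero m]

theorem gr_le (z : TX m) {t : ℕ} (ht : t ≤ m ^ 4) (x : TX m) : gr z t x ≤ 176 := by
  rw [gr_eq]
  have h1 : ∀ j, (KX^[j] (ind z)) x ≤ 8 / (m : ℝ) ^ 4 + 128 / (2 * (j : ℝ) + 1) ^ 2 := by
    intro j
    rw [KX_iter_ind]
    refine le_trans ?_ (q_four_le (m := m) j)
    have := Finset.prod_le_prod (s := (univ : Finset (Fin 4)))
      (f := fun i => (K1^[j] (ind (z i))) (x i))
      (g := fun _ => 1 / (m : ℝ) + 2 * ((Nat.centralBinom j : ℝ) / 4 ^ j))
      (fun i _ => K1_ind_nonneg _ _ _) (fun i _ => K1_ind_le _ _ _)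
    simpa using this
  refine (sum_le_sum fun j _ => h1 j).trans ?_
  rw [sum_add_distrib, sum_const, card_range, nsmul_eq_mul]
  have h2 := sum_inv_odd_sq t
  have hm : (1 : ℝ) ≤ (m : ℝ) ^ 4 := by
    have : (1 : ℝ) ≤ m := by exact_mod_cast Nat.pos_of_ne_zero (NeZero.ne m)
    exact one_le_pow₀ this
  have ht' : (t : ℝ) ≤ (m : ℝ) ^ 4 := by exact_mod_cast ht
  have h3 : ((t + 1 : ℕ) : ℝ) * (8 / (m : ℝ) ^ 4) ≤ 16 := by
    rw [mul_div_assoc', div_le_iff₀ (by linarith)]
    push_cast
    linarith
  have h4 : 0 ≤ 32 / ((t : ℝ) + 1) := by positivity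
  linarith

theorem sum_gr (t : ℕ) (x : TX m) : ∑ z, gr z t x = t + 1 := by
  have h0 : ∀ x : TX m, ∑ z, ind z x = 1 := by
    intro x; simp [ind]
  induction t generalizing x with
  | zero => simp [gr, h0]
  | succ t ih =>
    simp only [gr, sum_add_distrib, h0]
    rw [← KX_sum]
    simp only [ih, KX, av_const]
    push_cast; ring

variable (h2 : 2 ∣ m)

/-- Flip of the lamp at `z`. -/
def flip (z : TX m) : Tor m := lamp fun x => if x = z then -1 else 1

/-- Nonnegative functions which are antisymmetric about `1/2` under flipping the lamp `z`. -/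
def Anti (z : TX m) (U : Tor m → ℝ) : Prop :=
  (∀ g, 0 ≤ U g) ∧ ∀ g, U (flip z * g) + U g = 1

theorem Anti.PA {z : TX m} {U : Tor m → ℝ} (hU : Anti z U) : Anti z ((torLevel m h2).PA U) := by
  refine ⟨fun g => av_nonneg fun _ => hU.1 _, fun g => ?_⟩
  rw [Level.PA_apply, Level.PA_apply, ← av_add]
  refine Eq.trans ?_ (av_const (Ω := SA) 1)
  congr 1
  funext a
  have := hU.2 (g * iA a)
  rw [← mul_assoc] at this
  exact this

theorem Anti.PB {z : TX m} {U : Tor m → ℝ} (hU : Anti z U) : Anti z ((torLevel m h2).PB U) := by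
  refine ⟨fun g => av_nonneg fun _ => hU.1 _, fun g => ?_⟩
  rw [Level.PB_apply, Level.PB_apply, ← av_add]
  refine Eq.trans ?_ (av_const (Ω := SB) 1)
  congr 1
  funext a
  have := hU.2 (g * iB a)
  rw [← mul_assoc] at this
  exact this

theorem Anti.Pc {z : TX m} {U : Tor m → ℝ} (hU : Anti z U) (T : ℕ) :
    Anti z ((torLevel m h2).Pc T U) := by
  unfold Level.Pc
  split_ifs
  · exact hU.PA h2
  · exact hU.PB h2

omit [NeZero m] in
theorem mul_iA_neg (g : Tor m) : g * iA (-1, 1) = flip g.p * g := by
  refine Tor.ext (funext fun x => ?_) ?_ ?_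
  · simp only [mul_f, iA_f, smul_eq_zero', sub_eq_zero, flip, lamp, one_smul, sub_zero]
    rw [mul_comm]
  · simp [flip, lamp]
  · simp [flip, lamp]

theorem Anti.PA_at {U : Tor m → ℝ} (g : Tor m) (hU : Anti g.p U) :
    (torLevel m h2).PA U g = 1 / 2 := by
  have h1 := (hU.PA h2).2 g
  have h3 : (torLevel m h2).PA U (flip g.p * g) = (torLevel m h2).PA U g := by
    rw [← mul_iA_neg, Level.PA_apply, Level.PA_apply,
      ← av_equiv (Equiv.mulLeft ((-1, 1) : SA)) (fun a : SA => U (g * (torLevel m h2).ιA a))]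
    congr 1
    funext a
    congr 1
    simp only [Equiv.coe_mulLeft, map_mul]
    exact mul_assoc g _ _
  linarith

/-- The iterated operator `(P_A P_B)^t P_A`. -/
noncomputable def iter (t : ℕ) (U : Tor m → ℝ) : Tor m → ℝ :=
  (fun V => (torLevel m h2).PA ((torLevel m h2).PB V))^[t] ((torLevel m h2).PA U)

theorem Anti.iter {z : TX m} {U : Tor m → ℝ} (hU : Anti z U) (t : ℕ) :
    Anti z (iter h2 t U) := by
  induction t with
  | zero => exact hU.PA h2
  | succ t ih =>
    unfold Tor.iter
    rw [Function.iterate_succ_apply']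
    exact (ih.PB h2).PA h2

theorem Anti.gr_le_iter {z : TX m} {U : Tor m → ℝ} (hU : Anti z U) {t : ℕ} (ht : t ≤ m ^ 4)
    (g : Tor m) : gr z t g.p / 352 ≤ Tor.iter h2 t U g := by
  induction t generalizing g with
  | zero =>
    by_cases h : g.p = z
    · subst h
      have : Tor.iter h2 0 U g = 1 / 2 := hU.PA_at h2 g
      rw [this]
      have := gr_le g.p ht g.p
      linarith
    · simp only [gr, ind, h, if_false, zero_div]
      exact (hU.iter h2 0).1 g
  | succ t ih =>
    have e : Tor.iter h2 (t + 1) U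
        = (torLevel m h2).PA ((torLevel m h2).PB (Tor.iter h2 t U)) := by
      unfold Tor.iter
      rw [Function.iterate_succ_apply']
    rw [e]
    by_cases h : g.p = z
    · subst h
      rw [((hU.iter h2 t).PB h2).PA_at h2 g]
      have := gr_le g.p ht g.p
      linarith
    · simp only [gr, ind, h, if_false, zero_add]
      have e2 : KX (gr z t) g.p / 352 = av (fun a : SA => av (fun η : SB =>
          gr z t (g * iA a * iB η).p / 352)) := by
        rw [av_prod]
        simp only [mul_p, iA_p, smul_zero, add_zero, mul_σ, iA_σ, iB_p, av_const]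
        refine Eq.trans ?_ (av_equiv (Equiv.mulLeft g.σ)
          (fun σ : SB => av (fun η : SB => gr z t (g.p + σ • bit η) / 352))).symm
        simp only [KX, div_eq_inv_mul, av_mul]
      rw [e2]
      exact av_mono fun a => av_mono fun η => ih (by omega) _

theorem Alt_two_mul (t : ℕ) (U : Tor m → ℝ) : (torLevel m h2).Alt (2 * t) U = iter h2 t U := by
  induction t generalizing U with
  | zero => rfl
  | succ t ih =>
    have e : 2 * (t + 1) = 2 * t + 1 + 1 := by ring
    rw [e, Level.Alt_succ, Level.Alt_succ, ih]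
    have e1 : (torLevel m h2).Pc (2 * t + 1) = (torLevel m h2).PB := by
      unfold Level.Pc
      rw [if_neg (by simp)]
    have e2 : (torLevel m h2).Pc (2 * t + 1 + 1) = (torLevel m h2).PA := by
      unfold Level.Pc
      rw [if_pos ⟨t + 1, by ring⟩]
    rw [e1, e2]
    unfold iter
    rw [Function.iterate_succ_apply]

theorem Anti.Alt_eq {z : TX m} (t j : ℕ) {U : Tor m → ℝ} (hU : Anti z U) :
    ∃ U', Anti z U' ∧ (torLevel m h2).Alt (2 * t + j) U = Tor.iter h2 t U' := by
  induction j generalizing U with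
  | zero => exact ⟨U, hU, Alt_two_mul h2 t U⟩
  | succ j ih =>
    rw [← add_assoc, Level.Alt_succ]
    exact ih (hU.Pc h2 _)

/-- Indicator that the lamp `z` is lit. -/
def lit (z : TX m) (g : Tor m) : ℝ := if g.f z = 1 then 0 else 1

omit [NeZero m] in
theorem anti_lit (z : TX m) : Anti z (lit z) := by
  refine ⟨fun g => by unfold lit; split_ifs <;> norm_num, fun g => ?_⟩
  simp only [lit, flip, lamp, mul_f, if_true, one_smul, sub_zero]
  rcases Int.units_eq_one_or (g.f z) with h | h <;> simp [h]

theorem good : (torLevel m h2).Good (m ^ 4) := by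
  refine ⟨diam h2, fun g => ∑ z, lit z g, fun g => sum_nonneg fun z _ => (anti_lit z).1 g, ?_, ?_⟩
  · intro n
    induction n with
    | zero =>
      intro g hg
      have : g = (1 : Tor m) := hg
      simp [this, lit]
    | succ n ih =>
      rintro g ⟨g', a, b, hg', rfl⟩
      have h1 : ∀ z, lit z (g' * iA a * iB b) ≤ lit z g' + ind g'.p z := by
        intro z
        simp only [lit, mul_f, iB_f, mul_one, iA_f, smul_eq_zero', sub_eq_zero, ind]
        by_cases hz : z = g'.p
        · simp only [hz, if_true]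
          split_ifs <;> norm_num
        · simp [hz]
      refine (sum_le_sum fun z _ => h1 z).trans ?_
      rw [sum_add_distrib]
      have := ih g' hg'
      have h3 : ∑ z, ind g'.p z = 1 := by simp [ind]
      push_cast
      linarith
  · intro t T ht hT
    have e : (fun g : Tor m => ∑ z, lit z g) = ∑ z, lit z := by
      funext g; simp
    have e2 : (torLevel m h2).Alt T (∑ z, lit z) (1 : Tor m)
        = ∑ z, (torLevel m h2).Alt T (lit z) (1 : Tor m) := by
      rw [map_sum, Finset.sum_apply]
    rw [e, e2]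
    have h1 : ∀ z : TX m, gr z t 0 / 352 ≤ (torLevel m h2).Alt T (lit z) (1 : Tor m) := by
      intro z
      obtain ⟨U', hU', h⟩ := (anti_lit z).Alt_eq h2 t (T - 2 * t)
      rw [Nat.add_sub_cancel' hT] at h
      rw [h]
      exact hU'.gr_le_iter h2 ht 1
    refine le_trans ?_ (sum_le_sum fun z _ => h1 z)
    rw [← sum_div, sum_gr]
    have : (0 : ℝ) ≤ t := Nat.cast_nonneg t
    linarith

end Tor

end Pool.Agent.MP_d05e11_al
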