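import Pool.Agent.MP_d05e11_al.Defs
import Pool.Agent.MP_d05e11_al.Lower
import Pool.Agent.MP_d05e11_al.TorusSpeed
import Pool.Agent.MP_d05e11_al.Approx

namespace Pool.Agent.MP_d05e11_al

open Finset

section Transfer
variable {G Ω : Type} [Group G] [Fintype Ω] [Nonempty Ω] (g : Ω → G)

/-- The image of the uniform measure on `Ω`. -/
noncomputable def pushUnif : G →₀ ℝ := ∑ ω, Finsupp.single (g ω) (1 / (Fintype.card Ω : ℝ))

open Classical in
omit [Group G] [Nonempty Ω] in
theorem pushUnif_apply (x : G) :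
    pushUnif g x = ∑ ω, if g ω = x then 1 / (Fintype.card Ω : ℝ) else 0 := by
  simp only [pushUnif, Finsupp.coe_finset_sum, Finset.sum_apply, Finsupp.single_apply]

omit [Group G] [Nonempty Ω] in
theorem pushUnif_nonneg (x : G) : 0 ≤ pushUnif g x := by
  rw [pushUnif_apply]
  exact sum_nonneg fun ω _ => by split_ifs <;> positivity

omit [Group G] in
theorem mem_pushUnif_support (x : G) : x ∈ (pushUnif g).support ↔ ∃ ω, g ω = x := by
  classical
  have hc : (0 : ℝ) < 1 / (Fintype.card Ω : ℝ) := by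
    have : 0 < Fintype.card Ω := Fintype.card_pos
    positivity
  rw [Finsupp.mem_support_iff, pushUnif_apply]
  constructor
  · intro h
    obtain ⟨ω, _, hω⟩ := exists_ne_zero_of_sum_ne_zero h
    exact ⟨ω, by by_contra h'; exact hω (if_neg h')⟩
  · rintro ⟨ω, hω⟩
    refine ne_of_gt (sum_pos' (fun i _ => by split_ifs <;> positivity) ⟨ω, mem_univ _, ?_⟩)
    rwa [if_pos hω]

omit [Group G] in
theorem pushUnif_sum : (pushUnif g).sum (fun _ p => p) = 1 := by
  unfold pushUnif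
  rw [← Finsupp.sum_finset_sum_index (fun _ => rfl) (fun _ _ _ => rfl)]
  simp

omit [Nonempty Ω] in
theorem pushUnif_inv (ι : Ω → Ω) (hι : ∀ ω, ι (ι ω) = ω) (hg : ∀ ω, g (ι ω) = (g ω)⁻¹) (x : G) :
    pushUnif g x⁻¹ = pushUnif g x := by
  rw [pushUnif_apply, pushUnif_apply, ← Equiv.sum_comp (Function.Involutive.toPerm ι hι)]
  refine sum_congr rfl fun ω _ => ?_
  rw [Function.Involutive.coe_toPerm, hg]
  by_cases h : g ω = x
  · rw [if_pos h, if_pos (by rw [h])]
  · rw [if_neg h, if_neg (fun h' => h (inv_injective h'))]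

theorem speed_pushUnif (S : Finset G) (n : ℕ) :
    speed S (pushUnif g) n
      = av (fun x : Fin n → Ω => (wordLength S (List.ofFn fun i => g (x i)).prod : ℝ)) := by
  classical
  unfold speed av
  simp only [pushUnif_apply]
  simp only [Finset.prod_univ_sum, Fintype.piFinset_univ, sum_mul]
  rw [sum_comm, sum_div]
  refine sum_congr rfl fun x _ => ?_
  rw [sum_eq_single (fun i => g (x i))]
  · simp [div_eq_inv_mul]
  · intro s _ hs
    obtain ⟨i, hi⟩ := Function.ne_iff.mp hs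
    rw [prod_eq_zero (mem_univ i) (if_neg (Ne.symm hi)), zero_mul]
  · intro h
    refine absurd (Fintype.mem_piFinset.mpr fun i => ?_) h
    exact (mem_pushUnif_support g _).mpr ⟨_, rfl⟩

end Transfer

namespace Data
variable {A B : Type} [CommGroup A] [CommGroup B] (D : Data A B)

/-- The finitely generated group. -/
def G : Subgroup D.W := Subgroup.closure (Set.range D.gen)

/-- Its generators. -/
def gen' (ω : Om A B) : D.G := ⟨D.gen ω, Subgroup.subset_closure ⟨ω, rfl⟩⟩

theorem ev_reverse (w : List (Om A B)) : D.ev w.reverse = ((w.map D.gen').prod : D.G) := by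
  induction w with
  | nil => rfl
  | cons ω w ih => simp [ev_append, ih, ev, gen']

variable [Fintype A] [Fintype B]

theorem wordLength_eq (x : D.G) : wordLength (pushUnif D.gen').support x = D.len x := by
  unfold wordLength len
  congr 1
  ext n
  constructor
  · rintro ⟨l, h1, h2, h3⟩
    have : ∃ w : List (Om A B), l = w.map D.gen' := by
      clear h1 h3
      induction l with
      | nil => exact ⟨[], rfl⟩
      | cons y l ih =>
        obtain ⟨w, hw⟩ := ih fun z hz => h2 z (List.mem_cons_of_mem _ hz)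
        obtain ⟨ω, hω⟩ := (mem_pushUnif_support _ _).mp (h2 y List.mem_cons_self)
        exact ⟨ω :: w, by simp [hw, hω]⟩
    obtain ⟨w, rfl⟩ := this
    exact ⟨w.reverse, by simpa using h1, by rw [ev_reverse, h3]⟩
  · rintro ⟨w, h1, h2⟩
    refine ⟨w.reverse.map D.gen', by simpa using h1, fun y hy => ?_, ?_⟩
    · obtain ⟨ω, _, rfl⟩ := List.mem_map.mp hy
      exact (mem_pushUnif_support _ _).mpr ⟨_, rfl⟩
    · apply Subtype.ext
      rw [← ev_reverse, List.reverse_reverse, h2]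

theorem speed_eq (n : ℕ) : speed (pushUnif D.gen').support (pushUnif D.gen') n = D.Lw n := by
  rw [speed_pushUnif, Lw, EW_eq_av]
  congr 1
  funext x
  rw [wordLength_eq, ev_reverse, List.map_ofFn]
  rfl

theorem closure_gen' : Subgroup.closure ((pushUnif D.gen').support : Set D.G) = ⊤ := by
  have := Subgroup.closure_closure_coe_preimage (k := Set.range D.gen)
  refine Eq.trans ?_ this
  congr 1
  ext x
  simp only [mem_coe, mem_pushUnif_support, Set.mem_range, Set.mem_preimage]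
  constructor
  · rintro ⟨ω, rfl⟩; exact ⟨ω, rfl⟩
  · rintro ⟨ω, h⟩; exact ⟨ω, Subtype.ext h⟩

theorem inv_mem_support (x : D.G) (hx : x ∈ (pushUnif D.gen').support) :
    x⁻¹ ∈ (pushUnif D.gen').support := by
  obtain ⟨ω, hω⟩ := (mem_pushUnif_support _ _).mp hx
  exact (mem_pushUnif_support _ _).mpr ⟨oinv ω, by rw [← hω]; exact Subtype.ext (D.gen_oinv ω)⟩

end Data

theorem exists_data {ρ : ℕ → ℝ} (h1 : ∀ n, 1 ≤ n → 1 ≤ ρ n)
    (hmono : ∀ n m, 1 ≤ n → n ≤ m → ρ n ≤ ρ m)
    (hsub : ∀ n m, 1 ≤ n → 1 ≤ m → ρ (n + m) ≤ ρ n + ρ m)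
    (hsqrt : ∀ n : ℕ, 1 ≤ n → √(n : ℝ) ≤ ρ n) :
    ∃ D : Data SA SB, ∃ C : ℝ, ∀ n : ℕ, 1 ≤ n → D.Lw n ≤ C * ρ n ∧ ρ n ≤ C * D.Lw n := by
  obtain ⟨h, r, hh, hr, C, hC, hlow, hup⟩ := approx h1 hmono hsub hsqrt
  haveI : ∀ s, NeZero (2 * r s) := fun s => ⟨by have := hr s; omega⟩
  let D : Data SA SB := ⟨fun s => torLevel (2 * r s) (dvd_mul_right 2 (r s)), h, hh⟩
  have hG : ∀ s, (D.L s).Good ((2 * r s) ^ 4) := fun s => Tor.good _
  refine ⟨D, 288000 * C + 27, fun n hn => ⟨?_, ?_⟩⟩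
  · have hρ := h1 n hn
    have hCρ : 0 ≤ C * ρ n := by positivity
    rcases hup with hup | ⟨hg, hup⟩
    · have := D.Lw_le n
      have := hup n hn
      nlinarith
    · obtain ⟨s₁, h2, h3⟩ := hup n hn
      have h4 := D.Lw_upper hg (fun s => (2 * r s) ^ 4) hG s₁ n hn
      have h5 := hsqrt n hn
      change D.Lw n ≤ 352 * ∑ s ∈ range s₁, (h s : ℝ) * ((2 * r s) ^ 4 : ℕ)
        + 320 * (n / h s₁) + 27 * √(n : ℝ) at h4
      nlinarith
  · obtain ⟨s, hs⟩ := hlow n hn
    have h2 := D.level_le_Lw s _ (hG s) n hn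
    have h3 := D.sqrt_le_Lw n
    change min ((n : ℝ) / h s) (h s * ((2 * r s) ^ 4 : ℕ)) / 32000 - 2 * h s ≤ D.Lw n at h2
    have h4 : min ((n : ℝ) / h s) (h s * ((2 * r s) ^ 4 : ℕ)) ≤ (n : ℝ) / h s := min_le_left _ _
    set x := min ((n : ℝ) / h s) (h s * ((2 * r s) ^ 4 : ℕ))
    have hs0 : (0 : ℝ) < h s := by exact_mod_cast hh s
    have hq : 0 ≤ √(n : ℝ) := Real.sqrt_nonneg _
    have h5 : x ≤ 288000 * D.Lw n := by
      by_cases hc : (h s : ℝ) ≤ √(n : ℝ)
      · linarith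
      · push Not at hc
        have h6 : (n : ℝ) / h s ≤ √(n : ℝ) := by
          rw [div_le_iff₀ hs0]
          have := Real.mul_self_sqrt (Nat.cast_nonneg n : (0 : ℝ) ≤ n)
          nlinarith
        linarith
    have h6 := mul_le_mul_of_nonneg_left h5 hC.le
    nlinarith

end Pool.Agent.MP_d05e11_al
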