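import Pool.Agent.MP_d05e11_al.Level
import Pool.Agent.MP_d05e11_al.Cycle

namespace Pool.Agent.MP_d05e11_al

open Finset

/-- Sign vectors. -/
abbrev SB : Type := Fin 4 → ℤˣ

/-- A lamp switch together with a sign vector. -/
abbrev SA : Type := ℤˣ × SB

/-- The discrete torus. -/
abbrev TX (m : ℕ) : Type := Fin 4 → ZMod m

/-- Lamplighter group over the torus with base group a product of four dihedral groups. -/
@[ext] structure Tor (m : ℕ) where
  f : TX m → ℤˣ
  p : TX m
  σ : SB

namespace Tor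
variable {m : ℕ}

theorem ss (σ : SB) (x : TX m) : σ • σ • x = x := by
  rw [← mul_smul]
  have : σ * σ = 1 := by funext i; simp
  rw [this, one_smul]

instance : Mul (Tor m) :=
  ⟨fun g g' => ⟨fun x => g.f x * g'.f (g.σ • (x - g.p)), g.p + g.σ • g'.p, g.σ * g'.σ⟩⟩

instance : One (Tor m) := ⟨⟨fun _ => 1, 0, 1⟩⟩

instance : Inv (Tor m) := ⟨fun g => ⟨fun x => (g.f (g.p + g.σ • x))⁻¹, -(g.σ • g.p), g.σ⟩⟩

@[simp] theorem mul_f (g g' : Tor m) (x : TX m) :
    (g * g').f x = g.f x * g'.f (g.σ • (x - g.p)) := rfl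
@[simp] theorem mul_p (g g' : Tor m) : (g * g').p = g.p + g.σ • g'.p := rfl
@[simp] theorem mul_σ (g g' : Tor m) : (g * g').σ = g.σ * g'.σ := rfl
@[simp] theorem one_f (x : TX m) : (1 : Tor m).f x = 1 := rfl
@[simp] theorem one_p : (1 : Tor m).p = 0 := rfl
@[simp] theorem one_σ : (1 : Tor m).σ = 1 := rfl
theorem inv_f (g : Tor m) (x : TX m) : (g⁻¹).f x = (g.f (g.p + g.σ • x))⁻¹ := rfl
theorem inv_p (g : Tor m) : (g⁻¹).p = -(g.σ • g.p) := rfl
theorem inv_σ (g : Tor m) : (g⁻¹).σ = g.σ := rfl

instance : Group (Tor m) :=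
  Group.ofLeftAxioms
    (fun a b c => by
      refine Tor.ext (funext fun x => ?_) ?_ ?_
      · simp only [mul_f, mul_p, mul_σ, mul_assoc]
        congr 3
        rw [← sub_sub, smul_sub (a.σ * b.σ), mul_comm a.σ, mul_smul, mul_smul, ss, ← smul_sub]
      · simp only [mul_p, mul_σ, smul_add, mul_smul, add_assoc]
      · simp only [mul_σ, mul_assoc])
    (fun a => by
      refine Tor.ext (funext fun x => ?_) ?_ ?_ <;> simp)
    (fun a => by
      refine Tor.ext (funext fun x => ?_) ?_ ?_
      · simp only [mul_f, inv_f, inv_p, inv_σ, one_f, sub_neg_eq_add, smul_add, ss]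
        rw [add_comm a.p, inv_mul_cancel]
      · simp [inv_p, inv_σ]
      · simp only [mul_σ, inv_σ, one_σ]
        funext i; simp)

theorem smul_eq_zero' (σ : SB) (x : TX m) : σ • x = 0 ↔ x = 0 := by
  constructor
  · intro h
    rw [← ss σ x, h, smul_zero]
  · rintro rfl; simp

/-- Embedding of `SA`. -/
def iA : SA →* Tor m where
  toFun a := ⟨fun x => if x = 0 then a.1 else 1, 0, a.2⟩
  map_one' := by refine Tor.ext (funext fun x => ?_) rfl rfl; simp
  map_mul' a b := by
    refine Tor.ext (funext fun x => ?_) ?_ rfl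
    · simp only [mul_f, sub_zero, smul_eq_zero', Prod.fst_mul]
      split_ifs <;> simp
    · simp

/-- The translation part of an element of `SB`. -/
def bit (η : SB) : TX m := fun i => if η i = 1 then 0 else 1

/-- Embedding of `SB`. -/
def iB : SB →* Tor m where
  toFun η := ⟨fun _ => 1, bit η, η⟩
  map_one' := by
    refine Tor.ext rfl ?_ rfl
    funext i; simp [bit]
  map_mul' a b := by
    refine Tor.ext (funext fun x => ?_) ?_ rfl
    · simp
    · funext i
      simp only [mul_p, bit, Pi.add_apply, Pi.smul_apply', Pi.mul_apply]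
      rcases Int.units_eq_one_or (a i) with h | h <;> rcases Int.units_eq_one_or (b i) with h' | h' <;>
        simp [h, h']

@[simp] theorem iA_f (a : SA) (x : TX m) : (iA a : Tor m).f x = if x = 0 then a.1 else 1 := rfl
@[simp] theorem iA_p (a : SA) : (iA a : Tor m).p = 0 := rfl
@[simp] theorem iA_σ (a : SA) : (iA a : Tor m).σ = a.2 := rfl
@[simp] theorem iB_f (a : SB) (x : TX m) : (iB a : Tor m).f x = 1 := rfl
@[simp] theorem iB_p (a : SB) : (iB a : Tor m).p = bit a := rfl
@[simp] theorem iB_σ (a : SB) : (iB a : Tor m).σ = a := rfl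

/-- Parity character. -/
def χ (h2 : 2 ∣ m) (y : ZMod m) : ℤˣ := if ZMod.castHom h2 (ZMod 2) y = 0 then 1 else -1

theorem χ_add (h2 : 2 ∣ m) (y y' : ZMod m) : χ h2 (y + y') = χ h2 y * χ h2 y' := by
  unfold χ
  rw [map_add]
  generalize ZMod.castHom h2 (ZMod 2) y = a
  generalize ZMod.castHom h2 (ZMod 2) y' = b
  revert a b
  decide

theorem χ_smul (h2 : 2 ∣ m) (ε : ℤˣ) (y : ZMod m) : χ h2 (ε • y) = χ h2 y := by
  rcases Int.units_eq_one_or ε with h | h
  · simp [h]
  · simp only [h, Units.neg_smul, one_smul, χ, map_neg, neg_eq_zero]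

theorem χ_zero (h2 : 2 ∣ m) : χ h2 0 = 1 := by simp [χ]

theorem χ_one (h2 : 2 ∣ m) : χ h2 1 = -1 := by
  unfold χ
  rw [map_one, if_neg (by decide)]

variable [NeZero m]

/-- The retraction onto `SA × SB`. -/
def proj (h2 : 2 ∣ m) : Tor m →* SA × SB :=
  MonoidHom.mk' (fun g => ((∏ x, g.f x, fun i => g.σ i * χ h2 (g.p i)), fun i => χ h2 (g.p i)))
    (by
      intro a b
      have e : ∏ x, b.f (a.σ • (x - a.p)) = ∏ x, b.f x := by
        refine Fintype.prod_equiv ⟨fun x => a.σ • (x - a.p), fun x => a.p + a.σ • x, ?_, ?_⟩ _ _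
          fun x => rfl
        · intro x; simp [ss]
        · intro x; simp [ss]
      refine Prod.ext (Prod.ext ?_ ?_) ?_
      · simp only [mul_f, prod_mul_distrib, e, Prod.fst_mul]
      · funext i
        simp only [mul_σ, mul_p, Pi.mul_apply, Pi.add_apply, Pi.smul_apply', χ_add, χ_smul,
          Prod.fst_mul, Prod.snd_mul]
        ac_rfl
      · funext i
        simp only [mul_p, Pi.mul_apply, Pi.add_apply, Pi.smul_apply', χ_add, χ_smul,
          Prod.snd_mul])

end Tor

open Tor

/-- The torus lamplighter as a level. -/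
@[reducible] def torLevel (m : ℕ) [NeZero m] (h2 : 2 ∣ m) : Level SA SB where
  Γ := Tor m
  ιA := iA
  ιB := iB
  π := proj h2
  πA a := by
    refine Prod.ext (Prod.ext ?_ ?_) ?_
    · simp [proj]
    · funext i; simp [proj, χ_zero]
    · funext i; simp [proj, χ_zero]
  πB b := by
    refine Prod.ext (Prod.ext ?_ ?_) ?_
    · simp [proj]
    · funext i
      rcases Int.units_eq_one_or (b i) with h | h <;> simp [proj, bit, h, χ_zero, χ_one]
    · funext i
      rcases Int.units_eq_one_or (b i) with h | h <;> simp [proj, bit, h, χ_zero, χ_one]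

namespace Tor
variable {m : ℕ}

/-- Pure lamp configuration. -/
def lamp (f : TX m → ℤˣ) : Tor m := ⟨f, 0, 1⟩

/-- Pure translation. -/
def tr (v : TX m) : Tor m := ⟨fun _ => 1, v, 1⟩

theorem tr_add (v w : TX m) : tr (v + w) = tr v * tr w := by
  refine Tor.ext (funext fun x => ?_) ?_ ?_ <;> simp [tr]

theorem tr_zero : tr (0 : TX m) = 1 := rfl

theorem lamp_mul (f g : TX m → ℤˣ) : lamp (fun x => f x * g x) = lamp f * lamp g := by
  refine Tor.ext (funext fun x => ?_) ?_ ?_ <;> simp [lamp]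

theorem lamp_conj (f : TX m → ℤˣ) (v : TX m) :
    lamp f = tr v * lamp (fun x => f (x + v)) * tr (-v) := by
  refine Tor.ext (funext fun x => ?_) ?_ ?_ <;> simp [lamp, tr]

theorem decomp (g : Tor m) : g = lamp g.f * tr g.p * iA (1, g.σ) := by
  refine Tor.ext (funext fun x => ?_) ?_ ?_ <;> simp [lamp, tr]

theorem bit_single (i : Fin 4) : (bit (Pi.mulSingle i (-1)) : TX m) = Pi.single i 1 := by
  funext j
  by_cases h : j = i
  · subst h; simp [bit]
  · simp [bit, h]

theorem single_mul_self (i : Fin 4) :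
    (Pi.mulSingle i (-1) : SB) * Pi.mulSingle i (-1) = 1 := by
  funext j; simp

theorem tr_single (i : Fin 4) :
    tr (Pi.single i 1 : TX m) = iB (Pi.mulSingle i (-1)) * iA (1, Pi.mulSingle i (-1)) := by
  refine Tor.ext (funext fun x => ?_) ?_ ?_
  · simp [tr]
  · simp [tr, bit_single]
  · simp [tr, single_mul_self]

theorem tr_neg_single (i : Fin 4) :
    tr (-Pi.single i 1 : TX m) = iA (1, Pi.mulSingle i (-1)) * iB (Pi.mulSingle i (-1)) := by
  refine Tor.ext (funext fun x => ?_) ?_ ?_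
  · simp [tr]
  · simp only [tr, bit_single, mul_p, iA_p, iA_σ, iB_p, zero_add]
    funext j
    by_cases h : j = i
    · subst h; simp [Pi.smul_apply']
    · simp [Pi.smul_apply', h]
  · simp [tr, single_mul_self]

variable [NeZero m] (h2 : 2 ∣ m)

theorem Bl_tr_single (i : Fin 4) : (torLevel m h2).Bl 2 (tr (Pi.single i 1)) := by
  rw [tr_single]
  exact (Level.Bl_B (L := torLevel m h2) _).mul (Level.Bl_A (L := torLevel m h2) _)

theorem Bl_tr_neg_single (i : Fin 4) : (torLevel m h2).Bl 1 (tr (-Pi.single i 1)) := by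
  rw [tr_neg_single]
  exact Level.Bl_block (L := torLevel m h2) _ _

theorem Bl_tr_nat (i : Fin 4) (n : ℕ) :
    (torLevel m h2).Bl (2 * n) (tr (Pi.single i (n : ZMod m))) := by
  induction n with
  | zero =>
    rw [Nat.cast_zero, Pi.single_zero, tr_zero]
    exact Level.Bl_one (L := torLevel m h2) _
  | succ n ih =>
    rw [Nat.cast_succ, Pi.single_add, tr_add]
    exact ih.mul (Bl_tr_single h2 i)

theorem Bl_tr_coord (i : Fin 4) (c : ZMod m) :
    (torLevel m h2).Bl (2 * m) (tr (Pi.single i c)) := by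
  have := Bl_tr_nat h2 i c.val
  rw [ZMod.natCast_zmod_val] at this
  exact this.mono (by have := ZMod.val_lt c; omega)

theorem Bl_tr (p : TX m) : (torLevel m h2).Bl (8 * m) (tr p) := by
  have hp : p = Pi.single 0 (p 0) + Pi.single 1 (p 1) + Pi.single 2 (p 2) + Pi.single 3 (p 3) := by
    funext i; fin_cases i <;> simp
  rw [hp, tr_add, tr_add, tr_add]
  exact ((((Bl_tr_coord h2 0 _).mul (Bl_tr_coord h2 1 _)).mul (Bl_tr_coord h2 2 _)).mul
    (Bl_tr_coord h2 3 _)).mono (by omega)

/-- Every lamp configuration supported in `Y` costs at most `c` blocks. -/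
def Cost (Y : Set (TX m)) (c : ℕ) : Prop :=
  ∀ f : TX m → ℤˣ, (∀ x, x ∉ Y → f x = 1) → (torLevel m h2).Bl c (lamp f)

theorem Cost.slab {Y : Set (TX m)} {c : ℕ} (hY : Cost h2 Y c) (i : Fin 4) (r : ℕ) :
    Cost h2 {x | ∃ j : ℕ, j < r ∧ x - Pi.single i (j : ZMod m) ∈ Y} (r * (c + 3)) := by
  classical
  induction r with
  | zero =>
    intro f hf
    have : f = fun _ => 1 := funext fun x => hf x (by simp)
    rw [this]
    exact Level.Bl_one (L := torLevel m h2) _
  | succ r ih =>
    intro f hf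
    have e1 : f = fun x => (if x ∈ Y then f x else 1) * (if x ∈ Y then 1 else f x) := by
      funext x; split_ifs <;> simp
    rw [e1, lamp_mul, lamp_conj (fun x => if x ∈ Y then 1 else f x) (Pi.single i 1)]
    have b1 : (torLevel m h2).Bl c (lamp fun x => if x ∈ Y then f x else 1) :=
      hY _ fun x hx => if_neg hx
    have b2 := ih (fun x => if x + Pi.single i 1 ∈ Y then 1 else f (x + Pi.single i 1)) (by
      intro x hx
      split_ifs with h
      · rfl
      · refine hf _ ?_
        rintro ⟨j, hj, hj'⟩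
        cases j with
        | zero => exact h (by simpa using hj')
        | succ j =>
          refine hx ⟨j, by omega, ?_⟩
          rw [Nat.cast_succ, Pi.single_add] at hj'
          convert hj' using 1
          abel)
    exact (b1.mul (((Bl_tr_single h2 i).mul b2).mul (Bl_tr_neg_single h2 i))).mono
      (le_of_eq (by ring))

theorem Cost.step {d : ℕ} (hd : d < 4) {c : ℕ}
    (hY : Cost h2 {x | ∀ i : Fin 4, d ≤ i.val → x i = 0} c) :
    Cost h2 {x | ∀ i : Fin 4, d + 1 ≤ i.val → x i = 0} (m * (c + 3)) := by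
  intro f hf
  refine hY.slab h2 ⟨d, hd⟩ m f fun x hx => hf x fun hx' => hx ?_
  refine ⟨(x ⟨d, hd⟩).val, ZMod.val_lt _, fun i hi => ?_⟩
  rw [ZMod.natCast_zmod_val]
  by_cases h : i = ⟨d, hd⟩
  · subst h; simp
  · have : d + 1 ≤ i.val := by
      have : i.val ≠ d := fun h' => h (Fin.ext h')
      omega
    simp [h, hx' i this]

theorem Cost.zero : Cost h2 {x | ∀ i : Fin 4, 0 ≤ i.val → x i = 0} 1 := by
  intro f hf
  have : lamp f = iA (f 0, 1) := by
    refine Tor.ext (funext fun x => ?_) rfl rfl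
    simp only [lamp, iA_f]
    split_ifs with h
    · rw [h]
    · exact hf x fun hx => h (funext fun i => hx i (Nat.zero_le _))
  rw [this]
  exact Level.Bl_A (L := torLevel m h2) _

theorem diam (g : Tor m) : (torLevel m h2).Bl (22 * m ^ 4) g := by
  have c4 := ((((Cost.zero h2).step h2 (by norm_num)).step h2 (by norm_num)).step h2
    (by norm_num)).step h2 (by norm_num)
  have b1 := c4 g.f (fun x hx => absurd (fun i hi => absurd i.2 (by omega)) hx)
  rw [decomp g]
  refine ((b1.mul (Bl_tr h2 g.p)).mul (Level.Bl_A (L := torLevel m h2) _)).mono ?_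
  have hm : 1 ≤ m := Nat.pos_of_ne_zero (NeZero.ne m)
  have a1 : m ≤ m ^ 4 := Nat.le_self_pow (by norm_num) m
  have a2 : m ^ 2 ≤ m ^ 4 := Nat.pow_le_pow_right hm (by norm_num)
  have a3 : m ^ 3 ≤ m ^ 4 := Nat.pow_le_pow_right hm (by norm_num)
  nlinarith

end Tor

end Pool.Agent.MP_d05e11_al
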