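import Pool.Agent.MP_d05e11_al.Wreath

namespace Pool.Agent.MP_d05e11_al

open Finset

namespace Data
variable {A B : Type} [CommGroup A] [CommGroup B] (D : Data A B)

/-- A sweep placing the letters `u p` at the positions `lo ≤ p < lo + j`. -/
def sw (u : ℤ → A × B) (lo : ℤ) : ℕ → D.Cfg
  | 0 => 1
  | j + 1 => sw u lo j * D.put (lo + j) (u (lo + j))

theorem sw_mem (u : ℤ → A × B) (lo : ℤ) (j : ℕ) (H : Subgroup D.Cfg)
    (h : ∀ p, lo ≤ p → p < lo + j → D.put p (u p) ∈ H) : D.sw u lo j ∈ H := by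
  induction j with
  | zero => exact H.one_mem
  | succ j ih =>
    refine H.mul_mem (ih fun p h1 h2 => h p h1 (by push_cast; omega)) (h _ (by omega) ?_)
    push_cast; omega

theorem sw_snd (u : ℤ → A × B) (lo : ℤ) (j : ℕ) (p : ℤ) :
    (D.sw u lo j).2 p = if lo ≤ p ∧ p < lo + j then u p else 1 := by
  induction j with
  | zero => rw [if_neg (by omega)]; rfl
  | succ j ih =>
    simp only [sw, Prod.snd_mul, Pi.mul_apply, ih, put_snd]
    by_cases h : p = lo + j
    · rw [if_neg (by omega), if_pos h, if_pos (by push_cast; omega), one_mul, h]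
    · rw [if_neg h, mul_one]
      by_cases h2 : lo ≤ p ∧ p < lo + j
      · rw [if_pos h2, if_pos (by push_cast; omega)]
      · rw [if_neg h2, if_neg (by push_cast; omega)]

theorem sw_short_aux (u : ℤ → A × B) (lo : ℤ) (j : ℕ) :
    Short (⟨D.sw u lo j, lo + j⟩ : D.W) (lo.natAbs + j) := by
  induction j with
  | zero => simpa [sw] using short_move (D := D) lo
  | succ j ih =>
    have := ih.mul (short_gen (D := D) (u (lo + j), 1, 1))
    rw [← add_assoc]
    convert this using 1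
    refine W.ext ?_ ?_
    · simp [gen, sw, shift_put]
    · simp [gen, add_assoc]

theorem sw_short (u : ℤ → A × B) (lo : ℤ) (j : ℕ) :
    Short (⟨D.sw u lo j, 0⟩ : D.W) (lo.natAbs + j + (lo + j).natAbs) := by
  have := (D.sw_short_aux u lo j).mul (short_move (D := D) (-(lo + j)))
  rw [Int.natAbs_neg] at this
  convert this using 1
  refine W.ext ?_ ?_ <;> simp

/-- Configurations with all level values in the image of `A`. -/
def AllA : Subgroup D.Cfg where
  carrier := {F | ∀ s x, F.1 s x ∈ (D.L s).ιA.range}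
  mul_mem' := fun hF hG s x => Subgroup.mul_mem _ (hF s x) (hG s x)
  one_mem' := fun _ _ => Subgroup.one_mem _
  inv_mem' := fun hF s x => Subgroup.inv_mem _ (hF s x)

/-- Configurations with all level values in the image of `B`. -/
def AllB : Subgroup D.Cfg where
  carrier := {F | ∀ s x, F.1 s x ∈ (D.L s).ιB.range}
  mul_mem' := fun hF hG s x => Subgroup.mul_mem _ (hF s x) (hG s x)
  one_mem' := fun _ _ => Subgroup.one_mem _
  inv_mem' := fun hF s x => Subgroup.inv_mem _ (hF s x)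

theorem put_mem_AllA (p : ℤ) (a : A) : D.put p (a, 1) ∈ D.AllA := by
  intro s x
  rw [put_fst]
  split_ifs <;> simp

theorem put_mem_AllB (p : ℤ) (b : B) : D.put p (1, b) ∈ D.AllB := by
  intro s x
  rw [put_fst]
  split_ifs <;> simp

theorem Bl_two_sweeps (a : ℤ → A) (b : ℤ → B) (lo : ℤ) (j : ℕ) (s : ℕ) (x : D.Site s) :
    (D.L s).Bl 1 ((D.sw (fun p => (a p, 1)) lo j * D.sw (fun p => (1, b p)) lo j).1 s x) := by
  obtain ⟨a', ha⟩ := D.sw_mem (fun p => (a p, 1)) lo j D.AllA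
    (fun p _ _ => D.put_mem_AllA p _) s x
  obtain ⟨b', hb⟩ := D.sw_mem (fun p => (1, b p)) lo j D.AllB
    (fun p _ _ => D.put_mem_AllB p _) s x
  simp only [Prod.fst_mul, Pi.mul_apply, ← ha, ← hb]
  exact Level.Bl_block _ _

theorem fix_level (s : ℕ) (n : ℕ) (γ : D.Site s → (D.L s).Γ) (hγ : ∀ x, (D.L s).Bl n (γ x)) :
    ∃ V : D.Cfg, Short (⟨V, 0⟩ : D.W) (8 * D.k s * n) ∧ (∀ x, V.1 s x = γ x) ∧
      V ∈ D.N (Set.Ico 0 (2 * D.k s)) ∧ (∀ s' x, (D.L s').Bl n (V.1 s' x)) ∧
      ∀ p : ℤ, 0 ≤ p → p < 2 * D.k s → V.2 p = (((D.L s).π (γ (p : D.Site s))).1,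
        ((D.L s).π (γ ((p + D.k s : ℤ) : D.Site s))).2) := by
  induction n generalizing γ with
  | zero =>
    have : ∀ x, γ x = 1 := hγ
    refine ⟨1, short_one _, fun x => (this x).symm, Subgroup.one_mem _,
      fun _ _ => Level.Bl_one _, fun p _ _ => ?_⟩
    simp [this, Prod.ext_iff]
  | succ n ih =>
    choose γ' a b h1 h2 using hγ
    obtain ⟨V, hV1, hV2, hV3, hV4, hV5⟩ := ih γ' h1
    set uA : ℤ → A × B := fun p => (a (p : D.Site s), 1) with huA
    set uB : ℤ → A × B := fun p => (1, b ((p + D.k s : ℤ) : D.Site s)) with huB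
    set SA := D.sw uA 0 (2 * D.k s) with hSA
    set SB := D.sw uB 0 (2 * D.k s) with hSB
    have sA : Short (⟨SA, 0⟩ : D.W) (4 * D.k s) :=
      (D.sw_short uA 0 (2 * D.k s)).mono (by omega)
    have sB : Short (⟨SB, 0⟩ : D.W) (4 * D.k s) :=
      (D.sw_short uB 0 (2 * D.k s)).mono (by omega)
    have lA : SA ∈ D.LocA s 0 (2 * D.k s) :=
      D.sw_mem _ _ _ _ fun p h1 h2 => D.put_mem_LocA s h1 (by push_cast at h2; omega) _
        (Or.inr ⟨by omega, rfl⟩)
    have lB : SB ∈ D.LocB s 0 (2 * D.k s) :=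
      D.sw_mem _ _ _ _ fun p h1 h2 => D.put_mem_LocB s h1 (by push_cast at h2; omega) _
        (Or.inr ⟨by omega, rfl⟩)
    have eA : ∀ p : ℤ, 0 ≤ p → p < 2 * D.k s → SA.2 p = uA p := fun p h1 h2 => by
      rw [hSA, sw_snd, if_pos (by push_cast; omega)]
    have eB : ∀ p : ℤ, 0 ≤ p → p < 2 * D.k s → SB.2 p = uB p := fun p h1 h2 => by
      rw [hSB, sw_snd, if_pos (by push_cast; omega)]
    refine ⟨V * (SA * SB), ?_, ?_, ?_, ?_, ?_⟩
    · rw [cfg_mul, cfg_mul]
      exact (hV1.mul (sA.mul sB)).mono (le_of_eq (by ring))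
    · intro x
      have xA : SA.1 s x = (D.L s).ιA (a x) := by
        obtain ⟨p, h1, h2, rfl⟩ := D.site_surj s 0 x
        rw [lA p h1 (by omega), eA p h1 (by omega)]
      have xB : SB.1 s x = (D.L s).ιB (b x) := by
        obtain ⟨p, h1, h2, rfl⟩ := D.site_surj s (D.k s) x
        have := lB (p - D.k s) (by omega) (by omega)
        rw [eB _ (by omega) (by omega)] at this
        simp only [huB, sub_add_cancel] at this
        exact this
      simp only [Prod.fst_mul, Pi.mul_apply, hV2, xA, xB, h2 x, mul_assoc]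
    · refine Subgroup.mul_mem _ hV3 (Subgroup.mul_mem _ ?_ ?_)
      · exact D.sw_mem _ _ _ _ fun p h1 h2 => D.put_mem_N (Set.mem_Ico.mpr ⟨h1, by push_cast at h2; omega⟩) _
      · exact D.sw_mem _ _ _ _ fun p h1 h2 => D.put_mem_N (Set.mem_Ico.mpr ⟨h1, by push_cast at h2; omega⟩) _
    · intro s' x
      exact (hV4 s' x).mul (D.Bl_two_sweeps _ _ _ _ s' x)
    · intro p hp1 hp2
      simp only [Prod.snd_mul, Pi.mul_apply, hV5 p hp1 hp2, eA p hp1 hp2, eB p hp1 hp2, huA, huB]
      rw [h2 (p : D.Site s), h2 ((p + D.k s : ℤ) : D.Site s)]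
      simp [Level.πA, Level.πB]

theorem k_le_of_lt (hg : ∀ s, 5 * D.h s ≤ D.h (s + 1)) {s s' : ℕ} (h : s < s') :
    5 * D.k s ≤ D.k s' := by
  induction h with
  | refl => have := hg s; unfold k; simp only [Nat.succ_eq_add_one]; omega
  | step _ ih =>
    rename_i m _
    have := hg m
    unfold k at *
    simp only [Nat.succ_eq_add_one]
    omega

theorem sum_k_le (hg : ∀ s, 5 * D.h s ≤ D.h (s + 1)) (s : ℕ) :
    4 * ∑ i ∈ range s, D.k i ≤ D.k s := by
  induction s with
  | zero => simp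
  | succ s ih =>
    rw [sum_range_succ]
    have := D.k_le_of_lt hg (Nat.lt_succ_self s)
    simp only [Nat.succ_eq_add_one] at this
    omega

theorem succ_le_h (hg : ∀ s, 5 * D.h s ≤ D.h (s + 1)) (s : ℕ) : s + 1 ≤ D.h s := by
  induction s with
  | zero => exact D.hpos 0
  | succ s ih => have := hg s; omega

theorem clear (hg : ∀ s, 5 * D.h s ≤ D.h (s + 1)) (l : ℕ → ℕ)
    (hl : ∀ s γ, (D.L s).Bl (l s) γ) (s₁ M : ℕ) (u : ℕ → ℕ) (F : D.Cfg) (h0 : F.2 = 1)
    (hπ : ∀ s x, (D.L s).π (F.1 s x) = 1) (hM : ∀ s, M ≤ s → ∀ x, F.1 s x = 1)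
    (hu : ∀ s, s₁ ≤ s → s < M → ∀ x, (D.L s).Bl (u s) (F.1 s x)) :
    Short (⟨F, 0⟩ : D.W)
      (∑ s ∈ range M, if s < s₁ then 8 * D.k s * l s else 32 * D.k s * u s) := by
  induction M generalizing u F with
  | zero =>
    have : F = 1 := Prod.ext (funext fun s => funext fun x => hM s (Nat.zero_le _) x) h0
    rw [this]
    exact short_one _
  | succ M ih =>
    have key : ∀ n : ℕ, (∀ x, (D.L M).Bl n (F.1 M x)⁻¹) →
        Short (⟨F, 0⟩ : D.W) ((∑ s ∈ range M,
          if s < s₁ then 8 * D.k s * l s else 32 * D.k s * (u s + n)) + 8 * D.k M * n) := by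
      intro n hn
      obtain ⟨V, hV1, hV2, hV3, hV4, hV5⟩ := D.fix_level M n _ hn
      have hV0 : V.2 = 1 := by
        funext p
        by_cases hp : p ∈ Set.Ico (0 : ℤ) (2 * D.k M)
        · rw [hV5 p hp.1 hp.2]
          simp [hπ, Prod.ext_iff]
        · exact D.N_supp hV3 hp
      have := ih (fun s => u s + n) (F * V) (by simp [h0, hV0])
        (fun s x => by
          simp only [Prod.fst_mul, Pi.mul_apply, map_mul, hπ, D.N_proj _ _ hV3 hV0, mul_one])
        (fun s hs x => by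
          simp only [Prod.fst_mul, Pi.mul_apply]
          rcases hs.eq_or_lt with rfl | hs
          · rw [hV2, mul_inv_cancel]
          · rw [hM s hs, one_mul]
            refine D.N_trivial s 0 (D.N_mono ?_ hV3) hV0 x
            have := D.k_le_of_lt hg hs
            exact Set.Ico_subset_Ico le_rfl (by omega))
        (fun s h1 h2 x => (hu s h1 (by omega) x).mul (hV4 s x))
      have e : (⟨F, 0⟩ : D.W) = ⟨F * V, 0⟩ * (⟨V, 0⟩ : D.W)⁻¹ := by
        rw [cfg_mul, mul_inv_cancel_right]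
      rw [e]
      exact this.mul hV1.inv
    rw [sum_range_succ]
    by_cases hM1 : M < s₁
    · rw [if_pos hM1]
      refine (key (l M) fun x => hl _ _).mono (le_of_eq ?_)
      congr 1
      refine sum_congr rfl fun s hs => ?_
      have : s < s₁ := (mem_range.mp hs).trans hM1
      rw [if_pos this, if_pos this]
    · rw [if_neg hM1]
      refine (key (2 * u M) fun x => (hu M (by omega) (by omega) x).inv_two).mono ?_
      have h1 : (∑ s ∈ range M, if s < s₁ then 8 * D.k s * l s else 32 * D.k s * (u s + 2 * u M))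
          ≤ ∑ s ∈ range M, ((if s < s₁ then 8 * D.k s * l s else 32 * D.k s * u s)
            + D.k s * (64 * u M)) := by
        refine sum_le_sum fun s _ => ?_
        split_ifs
        · omega
        · exact le_of_eq (by ring)
      rw [sum_add_distrib, ← sum_mul] at h1
      have h2 := D.sum_k_le hg M
      have h3 : (∑ i ∈ range M, D.k i) * (64 * u M) ≤ D.k M * (16 * u M) := by
        calc (∑ i ∈ range M, D.k i) * (64 * u M) = (4 * ∑ i ∈ range M, D.k i) * (16 * u M) := by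
              ring
          _ ≤ D.k M * (16 * u M) := Nat.mul_le_mul_right _ h2
      nlinarith

theorem abs_pos_lt {r : ℕ} (hr : 0 < r) (w : List (Om A B)) :
    |pos dir w| < ((anc dir r w).1 + 1) * r := by
  have h1 := abs_anchor_le dir r w
  have h2 := anc_abs_lt dir hr w
  have h3 := abs_add_le (pos dir w - (anc dir r w).2) (anc dir r w).2
  rw [sub_add_cancel] at h3
  linarith

theorem ev_range {r : ℕ} (hr : 0 < r) (w : List (Om A B)) :
    (D.ev w).F ∈ D.N (Set.Ico (-(((anc dir r w).1 + 1) * r : ℤ)) (((anc dir r w).1 + 1) * r)) := by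
  induction w with
  | nil => exact Subgroup.one_mem _
  | cons ω w ih =>
    have hT : (anc dir r w).1 ≤ (anc dir r (ω :: w)).1 := by
      simp only [anc, ancStep]
      split_ifs <;> simp
    have hT' : (((anc dir r w).1 + 1) * r : ℤ) ≤ ((anc dir r (ω :: w)).1 + 1) * r := by
      have : ((anc dir r w).1 : ℤ) ≤ (anc dir r (ω :: w)).1 := by exact_mod_cast hT
      gcongr
    have h1 := abs_lt.mp (abs_pos_lt hr w)
    have h2 := abs_lt.mp (abs_pos_lt hr (ω :: w))
    rw [ev_cons_F]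
    refine Subgroup.mul_mem _ (Subgroup.mul_mem _ (D.N_mono ?_ ih) (D.put_mem_N ?_ _))
      (D.put_mem_N ?_ _)
    · exact Set.Ico_subset_Ico (by linarith) hT'
    · exact ⟨by linarith [h1.1], by linarith [h1.2]⟩
    · exact ⟨h2.1.le, h2.2⟩

theorem ev_blocks (s : ℕ) (w : List (Om A B)) (x : D.Site s) :
    (D.L s).Bl ((anc dir (D.h s) w).1 + 1) ((D.ev w).F.1 s x) := by
  have key : ∃ F₁ F₂ : D.Cfg, (D.ev w).F = F₁ * F₂ ∧
      (∀ x, (D.L s).Bl (anc dir (D.h s) w).1 (F₁.1 s x)) ∧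
      F₂ ∈ D.N (Set.Ico (pos dir w - (anc dir (D.h s) w).2 - D.h s)
        (pos dir w - (anc dir (D.h s) w).2 - D.h s + D.k s)) := by
    induction w with
    | nil => exact ⟨1, 1, by simp [ev], fun _ => Level.Bl_one _, Subgroup.one_mem _⟩
    | cons ω w ih =>
      obtain ⟨F₁, F₂, h1, h2, h3⟩ := ih
      have hk : (D.k s : ℤ) = 2 * D.h s := by simp [k]
      have hh := D.hpos s
      have h4 := abs_lt.mp (anc_abs_lt dir hh w)
      have h5 := abs_lt.mp (anc_abs_lt dir hh (ω :: w))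
      have h6 : F₂ * D.put (pos dir w) ω.1 ∈ D.N (Set.Ico (pos dir w - (anc dir (D.h s) w).2 - D.h s)
          (pos dir w - (anc dir (D.h s) w).2 - D.h s + D.k s)) :=
        Subgroup.mul_mem _ h3 (D.put_mem_N (Set.mem_Ico.mpr ⟨by omega, by omega⟩) _)
      rw [ev_cons_F, h1]
      by_cases hc : |(anc dir (D.h s) w).2 + (dir ω : ℤ)| = D.h s
      · have e : anc dir (D.h s) (ω :: w) = ((anc dir (D.h s) w).1 + 1, 0) := by
          simp only [anc, ancStep, if_pos hc]
        refine ⟨F₁ * (F₂ * D.put (pos dir w) ω.1), D.put (pos dir w + (dir ω : ℤ)) ω.2.2,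
          by simp only [mul_assoc], fun x => ?_, ?_⟩
        · rw [e]
          exact (h2 x).mul (D.N_Bl_one s _ h6 x)
        · rw [e]
          refine D.put_mem_N (Set.mem_Ico.mpr ⟨?_, ?_⟩) _ <;> simp only [pos] <;> omega
      · have e : anc dir (D.h s) (ω :: w)
            = ((anc dir (D.h s) w).1, (anc dir (D.h s) w).2 + (dir ω : ℤ)) := by
          simp only [anc, ancStep, if_neg hc]
        rw [e] at h5 ⊢
        refine ⟨F₁, F₂ * D.put (pos dir w) ω.1 * D.put (pos dir w + (dir ω : ℤ)) ω.2.2,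
          by simp only [mul_assoc], h2, ?_⟩
        have e2 : pos dir (ω :: w) - ((anc dir (D.h s) w).2 + (dir ω : ℤ))
            = pos dir w - (anc dir (D.h s) w).2 := by simp only [pos]; ring
        simp only [e2]
        refine Subgroup.mul_mem _ h6 (D.put_mem_N (Set.mem_Ico.mpr ⟨?_, ?_⟩) _) <;> simp only at h5 <;> omega
  obtain ⟨F₁, F₂, h1, h2, h3⟩ := key
  rw [h1]
  exact (h2 x).mul (D.N_Bl_one s _ h3 x)

theorem ev_short (hg : ∀ s, 5 * D.h s ≤ D.h (s + 1)) (l : ℕ → ℕ)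
    (hl : ∀ s γ, (D.L s).Bl (l s) γ) (s₁ : ℕ) {r : ℕ} (hr : 0 < r) (w : List (Om A B)) :
    Short (D.ev w) ((∑ s ∈ range w.length,
      if s < s₁ then 8 * D.k s * l s else 32 * D.k s * (4 * (anc dir (D.h s) w).1))
        + 9 * (((anc dir r w).1 + 1) * r)) := by
  set R : ℕ := ((anc dir r w).1 + 1) * r with hR
  have hR' : (R : ℤ) = ((anc dir r w).1 + 1) * r := by simp [hR]
  set F := (D.ev w).F with hF
  set SA := D.sw (fun p => ((F.2 p).1, 1)) (-R) (2 * R) with hSA
  set SB := D.sw (fun p => (1, (F.2 p).2)) (-R) (2 * R) with hSB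
  have sA : Short (⟨SA, 0⟩ : D.W) (4 * R) := (D.sw_short _ _ _).mono (by omega)
  have sB : Short (⟨SB, 0⟩ : D.W) (4 * R) := (D.sw_short _ _ _).mono (by omega)
  have hN : ∀ J : Set ℤ, F ∈ D.N J → SA * SB ∈ D.N J := by
    intro J hJ
    refine Subgroup.mul_mem _ (D.sw_mem _ _ _ _ fun p _ _ => ?_) (D.sw_mem _ _ _ _ fun p _ _ => ?_)
    · by_cases hp : p ∈ J
      · exact D.put_mem_N hp _
      · rw [D.N_supp hJ hp]
        exact (map_one (D.put p)).symm ▸ Subgroup.one_mem _
    · by_cases hp : p ∈ J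
      · exact D.put_mem_N hp _
      · rw [D.N_supp hJ hp]
        exact (map_one (D.put p)).symm ▸ Subgroup.one_mem _
  have hFR : F ∈ D.N (Set.Ico (-R : ℤ) R) := by rw [hR']; exact D.ev_range hr w
  have h0 : (F * (SA * SB)⁻¹).2 = 1 := by
    funext p
    simp only [Prod.snd_mul, Prod.snd_inv, Pi.mul_apply, Pi.inv_apply, hSA, hSB, sw_snd,
      Pi.one_apply]
    by_cases hp : p ∈ Set.Ico (-R : ℤ) R
    · have : -(R : ℤ) ≤ p ∧ p < -(R : ℤ) + ((2 * R : ℕ) : ℤ) := ⟨hp.1, by have := hp.2; push_cast; omega⟩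
      rw [if_pos this, if_pos this]
      simp
    · have : ¬ (-(R : ℤ) ≤ p ∧ p < -(R : ℤ) + ((2 * R : ℕ) : ℤ)) := fun h =>
        hp ⟨h.1, by have := h.2; push_cast at this; omega⟩
      rw [if_neg this, if_neg this, D.N_supp hFR hp]
      simp
  have htriv : ∀ s, (anc dir (D.h s) w).1 = 0 → ∀ x, (F * (SA * SB)⁻¹).1 s x = 1 := by
    intro s hs x
    have h1 := D.ev_range (D.hpos s) w
    rw [hs] at h1
    have hk : (D.k s : ℤ) = 2 * D.h s := by simp [k]
    have h2 : F ∈ D.N (Set.Ico (-(D.h s : ℤ)) (-(D.h s : ℤ) + D.k s)) :=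
      D.N_mono (Set.Ico_subset_Ico (by simp) (by simp; omega)) h1
    exact D.N_trivial s _ (Subgroup.mul_mem _ h2 (Subgroup.inv_mem _ (hN _ h2))) h0 x
  have hc := D.clear hg l hl s₁ w.length (fun s => 4 * (anc dir (D.h s) w).1) (F * (SA * SB)⁻¹) h0
    (D.N_proj _ _ (Subgroup.mul_mem _ hFR (Subgroup.inv_mem _ (hN _ hFR))) h0)
    (fun s hs => htriv s (by
      have h1 := anc_mul_le dir (D.h s) w
      have h2 := D.succ_le_h hg s
      by_contra h3
      have h4 : (1 : ℤ) ≤ (anc dir (D.h s) w).1 := by omega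
      have h5 : (0 : ℤ) ≤ |(anc dir (D.h s) w).2| := abs_nonneg _
      have h6 : (w.length : ℤ) < D.h s := by omega
      nlinarith))
    (fun s _ _ x => by
      rcases Nat.eq_zero_or_pos (anc dir (D.h s) w).1 with h | h
      · rw [htriv s h x]; exact Level.Bl_one _
      · exact ((D.ev_blocks s w x).mul (D.Bl_two_sweeps _ _ _ _ s x).inv).mono (by omega))
  have e : D.ev w = ⟨F * (SA * SB)⁻¹, 0⟩ * (⟨SA, 0⟩ * ⟨SB, 0⟩ * ⟨1, pos dir w⟩) := by
    refine W.ext ?_ ?_
    · simp [shift_zero, hF, mul_assoc]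
    · simp [ev_t]
  rw [e]
  refine (hc.mul ((sA.mul sB).mul (short_move _))).mono ?_
  have := abs_pos_lt hr w
  rw [← hR', abs_lt] at this
  omega

end Data

end Pool.Agent.MP_d05e11_al
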