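import Pool.Agent.MP_d05e11_al.Level

namespace Pool.Agent.MP_d05e11_al

open Finset

/-- Parameters of the diagonal product. -/
structure Data (A B : Type) [CommGroup A] [CommGroup B] where
  L : ℕ → Level A B
  h : ℕ → ℕ
  hpos : ∀ s, 0 < h s

namespace Data
variable {A B : Type} [CommGroup A] [CommGroup B] (D : Data A B)

/-- Distance between the `A`-site and the `B`-site at level `s`. -/
def k (s : ℕ) : ℕ := 2 * D.h s

theorem kpos (s : ℕ) : 0 < D.k s := by have := D.hpos s; unfold k; omega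

/-- Sites of level `s`. -/
abbrev Site (s : ℕ) : Type := ZMod (2 * D.k s)

/-- Lamp configurations. -/
abbrev Cfg : Type := (∀ s, D.Site s → (D.L s).Γ) × (ℤ → A × B)

theorem site_eq (s : ℕ) (a b : ℤ) :
    ((a : D.Site s) = (b : D.Site s)) ↔ (2 * (D.k s : ℤ)) ∣ b - a := by
  rw [ZMod.intCast_eq_intCast_iff_dvd_sub]
  push_cast
  rfl

theorem site_inj (s : ℕ) {a b : ℤ} (h : (a : D.Site s) = (b : D.Site s))
    (h1 : b - a < 2 * D.k s) (h2 : a - b < 2 * D.k s) : a = b := by
  rw [site_eq] at h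
  have := Int.eq_zero_of_abs_lt_dvd h (by rw [abs_lt]; constructor <;> linarith)
  linarith

theorem site_surj (s : ℕ) (lo : ℤ) (x : D.Site s) :
    ∃ p : ℤ, lo ≤ p ∧ p < lo + 2 * D.k s ∧ x = (p : D.Site s) := by
  obtain ⟨q, rfl⟩ := ZMod.intCast_surjective x
  have hk : (0 : ℤ) < 2 * D.k s := by have := D.kpos s; positivity
  refine ⟨lo + (q - lo) % (2 * D.k s), by linarith [Int.emod_nonneg (q - lo) hk.ne'],
    by linarith [Int.emod_lt_of_pos (q - lo) hk], ?_⟩
  rw [site_eq]
  refine ⟨-((q - lo) / (2 * D.k s)), ?_⟩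
  have := Int.emod_add_mul_ediv (q - lo) (2 * D.k s)
  linarith

theorem site_ne (s : ℕ) (p : ℤ) : (p : D.Site s) ≠ ((p + D.k s : ℤ) : D.Site s) := by
  intro h
  have hk := D.kpos s
  have := D.site_inj s h (by omega) (by omega)
  omega

/-- Translation of configurations. -/
def shift (t : ℤ) : D.Cfg →* D.Cfg where
  toFun F := (fun s x => F.1 s (x - (t : D.Site s)), fun p => F.2 (p - t))
  map_one' := rfl
  map_mul' _ _ := rfl

theorem shift_zero (F : D.Cfg) : D.shift 0 F = F := by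
  refine Prod.ext ?_ ?_
  · funext s x; simp [shift]
  · funext p; simp [shift]

theorem shift_add (t t' : ℤ) (F : D.Cfg) : D.shift (t + t') F = D.shift t (D.shift t' F) := by
  refine Prod.ext ?_ ?_
  · funext s x; simp [shift, sub_sub]
  · funext p; simp [shift, sub_sub]

/-- The letter `u` placed with the cursor at `p`. -/
def put (p : ℤ) : A × B →* D.Cfg :=
  MonoidHom.mk' (fun u =>
    (fun s x => (if x = (p : D.Site s) then (D.L s).ιA u.1 else 1) *
        (if x = ((p + D.k s : ℤ) : D.Site s) then (D.L s).ιB u.2 else 1),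
      fun q => if q = p then u else 1)) (by
    intro u v
    refine Prod.ext ?_ ?_
    · funext s x
      simp only [Prod.fst_mul, Prod.snd_mul, Pi.mul_apply, map_mul]
      by_cases h1 : x = (p : D.Site s)
      · have h2 : ¬ x = ((p + D.k s : ℤ) : D.Site s) := fun h => D.site_ne s p (h1 ▸ h)
        simp only [if_pos h1, if_neg h2, mul_one]
      · simp only [if_neg h1, one_mul]
        split_ifs <;> simp
    · funext q
      simp only [Prod.snd_mul, Pi.mul_apply]
      split_ifs <;> simp)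

theorem put_fst (p : ℤ) (u : A × B) (s : ℕ) (x : D.Site s) :
    (D.put p u).1 s x = (if x = (p : D.Site s) then (D.L s).ιA u.1 else 1) *
        (if x = ((p + D.k s : ℤ) : D.Site s) then (D.L s).ιB u.2 else 1) := rfl

theorem put_snd (p : ℤ) (u : A × B) (q : ℤ) : (D.put p u).2 q = if q = p then u else 1 := rfl

theorem shift_put (t p : ℤ) (u : A × B) : D.shift t (D.put p u) = D.put (t + p) u := by
  refine Prod.ext ?_ ?_
  · funext s x
    change (D.put p u).1 s (x - (t : D.Site s)) = _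
    rw [put_fst, put_fst]
    simp only [sub_eq_iff_eq_add', Int.cast_add, add_assoc]
  · funext q
    change (D.put p u).2 (q - t) = _
    rw [put_snd, put_snd]
    simp only [sub_eq_iff_eq_add']

/-- The ambient wreath product. -/
@[ext] structure W where
  F : D.Cfg
  t : ℤ

variable {D}

instance : Mul D.W := ⟨fun g g' => ⟨g.F * D.shift g.t g'.F, g.t + g'.t⟩⟩
instance : One D.W := ⟨⟨1, 0⟩⟩
instance : Inv D.W := ⟨fun g => ⟨D.shift (-g.t) g.F⁻¹, -g.t⟩⟩

@[simp] theorem mul_F (g g' : D.W) : (g * g').F = g.F * D.shift g.t g'.F := rfl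
@[simp] theorem mul_t (g g' : D.W) : (g * g').t = g.t + g'.t := rfl
@[simp] theorem one_F : (1 : D.W).F = 1 := rfl
@[simp] theorem one_t : (1 : D.W).t = 0 := rfl
theorem inv_F (g : D.W) : (g⁻¹).F = D.shift (-g.t) g.F⁻¹ := rfl
theorem inv_t (g : D.W) : (g⁻¹).t = -g.t := rfl

instance : Group D.W :=
  Group.ofLeftAxioms
    (fun a b c => by
      refine W.ext ?_ ?_
      · simp only [mul_F, mul_t, map_mul, shift_add, mul_assoc]
      · simp only [mul_t, add_assoc])
    (fun a => by
      refine W.ext ?_ ?_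
      · simp [shift_zero]
      · simp)
    (fun a => by
      refine W.ext ?_ ?_
      · simp only [mul_F, inv_F, inv_t, one_F, ← map_mul, inv_mul_cancel, map_one]
      · simp [inv_t])

variable (D)

/-- Index set of the generators. -/
abbrev Om (A B : Type) : Type := (A × B) × ℤˣ × (A × B)

/-- Direction of the cursor move. -/
def dir (ω : Om A B) : ℤˣ := ω.2.1

/-- Switch, walk, switch. -/
def gen (ω : Om A B) : D.W := ⟨D.put 0 ω.1 * D.put (ω.2.1 : ℤ) ω.2.2, (ω.2.1 : ℤ)⟩

/-- The involution of the generators. -/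
def oinv (ω : Om A B) : Om A B := (ω.2.2⁻¹, -ω.2.1, ω.1⁻¹)

theorem oinv_oinv (ω : Om A B) : oinv (oinv ω) = ω := by simp [oinv]

theorem gen_oinv (ω : Om A B) : D.gen (oinv ω) = (D.gen ω)⁻¹ := by
  refine W.ext ?_ ?_
  · simp only [gen, oinv, inv_F, mul_inv_rev, map_mul, ← map_inv, shift_put]
    simp
  · simp [gen, oinv, inv_t]

/-- Evaluation of words; the head is the last letter. -/
def ev : List (Om A B) → D.W
  | [] => 1
  | ω :: w => ev w * D.gen ω

theorem ev_t (w : List (Om A B)) : (D.ev w).t = pos dir w := by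
  induction w with
  | nil => rfl
  | cons ω w ih => simp [ev, pos, ih, gen, dir]

theorem ev_cons_F (ω : Om A B) (w : List (Om A B)) :
    (D.ev (ω :: w)).F
      = (D.ev w).F * D.put (pos dir w) ω.1 * D.put (pos dir w + (dir ω : ℤ)) ω.2.2 := by
  simp only [ev, mul_F, gen, map_mul, shift_put, ev_t, add_zero, mul_assoc, dir]

theorem ev_append (w w' : List (Om A B)) : D.ev (w ++ w') = D.ev w' * D.ev w := by
  induction w with
  | nil => simp [ev]
  | cons ω w ih => simp [ev, ih, mul_assoc]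

theorem ev_inv (w : List (Om A B)) : D.ev (w.map oinv).reverse = (D.ev w)⁻¹ := by
  induction w with
  | nil => simp [ev]
  | cons ω w ih => simp [ev, ev_append, ih, gen_oinv]

variable {D}

/-- `g` is represented by a word of length at most `n`. -/
def Short (g : D.W) (n : ℕ) : Prop := ∃ w : List (Om A B), w.length ≤ n ∧ D.ev w = g

theorem Short.mono {g : D.W} {n m : ℕ} (h : Short g n) (hnm : n ≤ m) : Short g m := by
  obtain ⟨w, h1, h2⟩ := h
  exact ⟨w, h1.trans hnm, h2⟩

theorem Short.mul {g g' : D.W} {n m : ℕ} (h : Short g n) (h' : Short g' m) :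
    Short (g * g') (n + m) := by
  obtain ⟨w, h1, rfl⟩ := h
  obtain ⟨w', h1', rfl⟩ := h'
  exact ⟨w' ++ w, by simp; omega, D.ev_append _ _⟩

theorem Short.inv {g : D.W} {n : ℕ} (h : Short g n) : Short g⁻¹ n := by
  obtain ⟨w, h1, rfl⟩ := h
  exact ⟨_, by simpa using h1, D.ev_inv w⟩

theorem short_one (n : ℕ) : Short (1 : D.W) n := ⟨[], by simp, rfl⟩

theorem short_gen (ω : Om A B) : Short (D.gen ω) 1 := ⟨[ω], by simp, by simp [ev]⟩

theorem short_move_nat (n : ℕ) : Short (⟨1, n⟩ : D.W) n := by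
  induction n with
  | zero => exact short_one 0
  | succ n ih =>
    have := ih.mul (short_gen (D := D) (1, 1, 1))
    convert this using 1
    refine W.ext ?_ ?_ <;> simp [gen]

theorem short_move (t : ℤ) : Short (⟨1, t⟩ : D.W) t.natAbs := by
  rcases Int.natAbs_eq t with h | h
  · conv_lhs => rw [h]
    exact short_move_nat _
  · have := (short_move_nat (D := D) t.natAbs).inv
    convert this using 1
    refine W.ext ?_ ?_
    · simp [inv_F]
    · simpa [inv_t] using h

theorem cfg_mul (F F' : D.Cfg) : (⟨F * F', 0⟩ : D.W) = ⟨F, 0⟩ * ⟨F', 0⟩ := by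
  refine W.ext ?_ ?_ <;> simp [shift_zero]

theorem cfg_inv (F : D.Cfg) : (⟨F⁻¹, 0⟩ : D.W) = (⟨F, 0⟩ : D.W)⁻¹ := by
  refine W.ext ?_ ?_ <;> simp [shift_zero, inv_F, inv_t]

variable (D)

/-- Configurations generated by letters placed at cursor positions in `J`. -/
def N (J : Set ℤ) : Subgroup D.Cfg := Subgroup.closure {F | ∃ p ∈ J, ∃ u, F = D.put p u}

theorem put_mem_N {J : Set ℤ} {p : ℤ} (hp : p ∈ J) (u : A × B) : D.put p u ∈ D.N J :=
  Subgroup.subset_closure ⟨p, hp, u, rfl⟩

theorem N_le {J : Set ℤ} {H : Subgroup D.Cfg} (h : ∀ p ∈ J, ∀ u, D.put p u ∈ H) : D.N J ≤ H := by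
  refine (Subgroup.closure_le _).mpr ?_
  rintro F ⟨p, hp, u, rfl⟩
  exact h p hp u

theorem N_mono {J J' : Set ℤ} (h : J ⊆ J') : D.N J ≤ D.N J' :=
  D.N_le fun _ hp u => D.put_mem_N (h hp) u

theorem N_supp {J : Set ℤ} {F : D.Cfg} (hF : F ∈ D.N J) {p : ℤ} (hp : p ∉ J) : F.2 p = 1 := by
  have : D.N J ≤ ((Pi.evalMonoidHom (fun _ : ℤ => A × B) p).comp (MonoidHom.snd _ _)).ker := by
    refine D.N_le fun q hq u => ?_
    change (D.put q u).2 p = 1
    rw [put_snd, if_neg]
    rintro rfl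
    exact hp hq
  exact this hF

/-- Configurations whose level `s` sites in a window only saw `A`. -/
def LocA (s : ℕ) (lo hi : ℤ) : Subgroup D.Cfg where
  carrier := {F | ∀ p, lo ≤ p → p < hi → F.1 s (p : D.Site s) = (D.L s).ιA (F.2 p).1}
  mul_mem' := by
    intro F G hF hG p h1 h2
    simp only [Prod.fst_mul, Prod.snd_mul, Pi.mul_apply, map_mul, hF p h1 h2, hG p h1 h2]
  one_mem' := by intro p _ _; simp
  inv_mem' := by
    intro F hF p h1 h2
    simp only [Prod.fst_inv, Prod.snd_inv, Pi.inv_apply, map_inv, hF p h1 h2]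

/-- Configurations whose level `s` sites in a shifted window only saw `B`. -/
def LocB (s : ℕ) (lo hi : ℤ) : Subgroup D.Cfg where
  carrier := {F | ∀ p, lo ≤ p → p < hi →
    F.1 s ((p + D.k s : ℤ) : D.Site s) = (D.L s).ιB (F.2 p).2}
  mul_mem' := by
    intro F G hF hG p h1 h2
    simp only [Prod.fst_mul, Prod.snd_mul, Pi.mul_apply, map_mul, hF p h1 h2, hG p h1 h2]
  one_mem' := by intro p _ _; simp
  inv_mem' := by
    intro F hF p h1 h2
    simp only [Prod.fst_inv, Prod.snd_inv, Pi.inv_apply, map_inv, hF p h1 h2]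

theorem put_mem_LocA (s : ℕ) {lo hi q : ℤ} (h1 : lo ≤ q) (h2 : q < hi) (u : A × B)
    (h : hi ≤ lo + D.k s ∨ (hi ≤ lo + 2 * D.k s ∧ u.2 = 1)) : D.put q u ∈ D.LocA s lo hi := by
  intro p hp1 hp2
  have hk := D.kpos s
  rw [put_fst, put_snd]
  have e2 : (if (p : D.Site s) = ((q + D.k s : ℤ) : D.Site s) then (D.L s).ιB u.2 else 1) = 1 := by
    split_ifs with h3
    · rcases h with h | h
      · have := D.site_inj s h3 (by omega) (by omega)
        omega
      · rw [h.2, map_one]
    · rfl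
  rw [e2, mul_one]
  by_cases hpq : p = q
  · simp [hpq]
  · rw [if_neg hpq, if_neg]
    · simp
    · intro h3
      exact hpq (D.site_inj s h3 (by omega) (by omega))

theorem put_mem_LocB (s : ℕ) {lo hi q : ℤ} (h1 : lo ≤ q) (h2 : q < hi) (u : A × B)
    (h : hi ≤ lo + D.k s ∨ (hi ≤ lo + 2 * D.k s ∧ u.1 = 1)) : D.put q u ∈ D.LocB s lo hi := by
  intro p hp1 hp2
  have hk := D.kpos s
  rw [put_fst, put_snd]
  have e2 : (if ((p + D.k s : ℤ) : D.Site s) = (q : D.Site s) then (D.L s).ιA u.1 else 1) = 1 := by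
    split_ifs with h3
    · rcases h with h | h
      · have := D.site_inj s h3 (by omega) (by omega)
        omega
      · rw [h.2, map_one]
    · rfl
  rw [e2, one_mul]
  by_cases hpq : p = q
  · simp [hpq]
  · rw [if_neg hpq, if_neg]
    · simp
    · intro h3
      have := D.site_inj s h3 (by omega) (by omega)
      omega

theorem N_local (s : ℕ) (lo : ℤ) {F : D.Cfg} (hF : F ∈ D.N (Set.Ico lo (lo + D.k s)))
    (x : D.Site s) :
    (∃ p, F.1 s x = (D.L s).ιA (F.2 p).1) ∨ (∃ p, F.1 s x = (D.L s).ιB (F.2 p).2) := by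
  have hA : F ∈ D.LocA s lo (lo + D.k s) :=
    D.N_le (fun p hp u => D.put_mem_LocA s hp.1 hp.2 u (Or.inl le_rfl)) hF
  have hB : F ∈ D.LocB s lo (lo + D.k s) :=
    D.N_le (fun p hp u => D.put_mem_LocB s hp.1 hp.2 u (Or.inl le_rfl)) hF
  obtain ⟨p, h1, h2, rfl⟩ := D.site_surj s lo x
  by_cases h : p < lo + D.k s
  · exact Or.inl ⟨p, hA p h1 h⟩
  · refine Or.inr ⟨p - D.k s, ?_⟩
    have := hB (p - D.k s) (by omega) (by omega)
    rwa [sub_add_cancel] at this

theorem N_Bl_one (s : ℕ) (lo : ℤ) {F : D.Cfg} (hF : F ∈ D.N (Set.Ico lo (lo + D.k s)))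
    (x : D.Site s) : (D.L s).Bl 1 (F.1 s x) := by
  rcases D.N_local s lo hF x with ⟨p, h⟩ | ⟨p, h⟩ <;> rw [h]
  · exact Level.Bl_A _
  · exact Level.Bl_B _

theorem N_trivial (s : ℕ) (lo : ℤ) {F : D.Cfg} (hF : F ∈ D.N (Set.Ico lo (lo + D.k s)))
    (h0 : F.2 = 1) (x : D.Site s) : F.1 s x = 1 := by
  rcases D.N_local s lo hF x with ⟨p, h⟩ | ⟨p, h⟩ <;> rw [h, h0] <;> simp

theorem N_proj (lo hi : ℤ) {F : D.Cfg} (hF : F ∈ D.N (Set.Ico lo hi)) (h0 : F.2 = 1)
    (s : ℕ) (x : D.Site s) : (D.L s).π (F.1 s x) = 1 := by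
  have key : (D.L s).π (F.1 s x) = ∏ p ∈ Finset.Ico lo hi,
      ((if x = (p : D.Site s) then (F.2 p).1 else 1),
        (if x = ((p + D.k s : ℤ) : D.Site s) then (F.2 p).2 else 1)) := by
    clear h0
    unfold N at hF
    induction hF using Subgroup.closure_induction with
    | mem F hF =>
      obtain ⟨q, hq, u, rfl⟩ := hF
      rw [Finset.prod_eq_single q]
      · rw [put_fst, put_snd, if_pos rfl, map_mul]
        split_ifs <;> simp [Level.πA, Level.πB, Prod.ext_iff]
      · intro p _ hp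
        rw [put_snd, if_neg hp]
        simp [Prod.ext_iff]
      · intro h
        exact absurd (Finset.mem_Ico.mpr hq) h
    | one => simp [Prod.ext_iff]
    | mul F G _ _ hF hG =>
      simp only [Prod.fst_mul, Prod.snd_mul, Pi.mul_apply, map_mul]
      rw [hF, hG, ← prod_mul_distrib]
      refine prod_congr rfl fun p _ => ?_
      split_ifs <;> simp [Prod.ext_iff]
    | inv F _ hF =>
      simp only [Prod.fst_inv, Prod.snd_inv, Pi.inv_apply, map_inv]
      rw [hF, ← prod_inv_distrib]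
      refine prod_congr rfl fun p _ => ?_
      split_ifs <;> simp [Prod.ext_iff]
  rw [key, h0]
  simp

end Data

end Pool.Agent.MP_d05e11_al
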